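import Pool.Agent.MWGR.StmtsE

/-!
# Block MWGR, part N: necessary edges for two words of the same types (rows)

Rows as in `StmtsE.lean` (import `Pool.Agent.MWGR.StmtsN`).  The rows NT0 NT1 NT2 NTZ NTR NTP NTK NTD NTE
(small words) are in `MWGR/StmtsD.lean` (helper48).  All rows NF*: `RR θ (asm k B) (asm k B')` is pushed along a
map of blocks (PSL), the letters which are not needed are deleted (`σ c = []`), and the small words are
evaluated with PBI, SPT, EVL.  In the maps below `J` is a block number `≥ i`, `f j = 0` for `j ≤ J` etc.  Residues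
mod `n`: `EqT` (entries are equal or both `≥ 2` and congruent mod `n`).
-/

namespace Pool.Agent.MWGR

open Pool.Agent.Helper14_MV Pool.Agent.Helper2_MV Pool.Agent.MVO Pool.Agent.MWL Pool.Agent.MWS
  Pool.Agent.MWH

/-- the word with the blocks `C 0, …, C k` and the separators `2 + d, 3 + d, ..` -/
def asd (d : ℕ) : ℕ → (ℕ → List ℕ) → List ℕ
  | 0, C => C 0
  | k + 1, C => asd d k C ++ (k + 2 + d) :: C (k + 1)

/-- **PSL** (uses nothing).  Push and substitution.
PROOF.  `rr_push` (`MVO/Push.lean`), then `RR.sub` with `c ↦ if NS k' c then σ c else [c + d]`.  The letters of the blocks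
`pshB k f B j` are letters of blocks of `B` (`mem_pshB`), so `NS k`, hence `NS k'` (`k' ≤ k`); the separators `j + 2`, `j < k'`, go to
`j + 2 + d`.  Induction on `k'` for `(asm k' C).flatMap _ = asd d k' (fun j => (C j).flatMap σ)`. -/
def PslStmt : Prop :=
  ∀ (θ : FIC) (k k' d : ℕ) (f : ℕ → ℕ) (B B' : ℕ → List ℕ) (σ : ℕ → List ℕ), BMap k k' f → k' ≤ k →
    BlkOk k B → BlkOk k B' → RR θ (asm k B) (asm k B') →
      RR θ (asd d k' (fun j => (pshB k f B j).flatMap σ))
        (asd d k' (fun j => (pshB k f B' j).flatMap σ))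

/-- **PBI** (uses nothing).  The pushed block which contains block `i`.
PROOF.  Definition of `pshB` (`List.range (k+1)` filtered), `List.range (k+1) = List.range i ++ i :: List.range' (i+1) (k-i)`. -/
def PbiStmt : Prop :=
  ∀ (k i : ℕ) (f : ℕ → ℕ) (B : ℕ → List ℕ), i ≤ k →
    pshB k f B (f i) = ((List.range i).filter (fun j => decide (f j = f i))).flatMap B ++
      (B i ++ ((List.range' (i + 1) (k - i)).filter (fun j => decide (f j = f i))).flatMap B)

/-- **SPT** (uses nothing).  A letter which occurs once.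
PROOF.  `List.append_of_mem`, `takeWhile` of `P ++ a :: Q` with `a ∉ P` is `P`. -/
def SptStmt : Prop :=
  ∀ (l : List ℕ) (a : ℕ), l.count a = 1 →
    ∃ P Q : List ℕ, l = P ++ a :: Q ∧ a ∉ P ∧ a ∉ Q ∧ ∀ x, cb l x a = P.count x

/-- **EVL** (uses nothing).  Evaluation with weights.
PROOF.  Induction on `l`; `m c` is added if `c ∈ R` (`R` has no repetitions: only one summand changes). -/
def EvlStmt : Prop :=
  ∀ (R : List ℕ) (m : ℕ → ℕ) (l : List ℕ) (σ : ℕ → List ℕ), R.Nodup →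
    (∀ c ∈ l, σ c = if c ∈ R then X (m c) else []) →
      l.flatMap σ = X ((R.map (fun x => m x * l.count x)).sum)

/-- **NFD** (uses PSL, PBI, SPT, EVL, NTD, DMA).  The label of a rigid pair.
PROOF.  `a` occurs behind `i` (total `≥ 2`, entries before `i` are `0` by `Gm`); let `J + 1` be the first block behind `i` with `a`; all
blocks with `x` behind `i` are `≤ J` (`Rg`).  `f j = 0` for `j ≤ J`, `1` for `j > J`; `k' = 1`, `d = 0`; `σ x = [0]`, `σ a = [1]`, `[]` otherwise.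
Words: `X (P + u) ++ 1 :: (X (v + Q) ++ 2 :: 1^m)` with `u = cb (B i) x a`, `P` = number of `x` before block `i`, and the same for
`B'`; NTD: `Dm n ((P + u) + (n-1)(P' + u'))`, and `P ≡ P' [MOD n]`.  `Dm` only depends on the residue (DMA: `g ∣ n`). -/
def NfdStmt : Prop :=
  ∀ (n k : ℕ) (θ : FIC) (B B' : ℕ → List ℕ), BG n (RR θ) → Fam n k B B' →
    RR θ (asm k B) (asm k B') → ∀ i x a, i ≤ k → x ≠ a → 2 ≤ (B i).count x → (B i).count a = 1 →
      Rg k B i x a → Dm n (cb (B i) x a + (n - 1) * cb (B' i) x a) (RR θ)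

/-- **NFR** (uses PSL, PBI, SPT, EVL, NT0, NT1, NT2).  The right state.
PROOF.  By symmetry (`Fam n k B' B`, `RR.symm`) let `cb (B i) x a = (B i).count x` (all `x` before `a`) and `cb (B' i) x a < (B' i).count x`.
(1) as NFD with `x` not behind `i`: `X (P + u) ++ 1 :: 2 :: 1^m` and `X (P' + u') ++ 1 :: (X v' ++ 2 :: 1^m')`, `1 ≤ v'`: NT0.  (2) `k' = 2`: `f j = 0`
for `j ≤ i`, `1` for `i < j ≤ J` (`J + 1` = first block behind `i` with `a`), `2` for `j > J`: `X (P+u) 1 | X c | 1^m`: NT1 (`1 ≤ c`).  (3)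
`f j = 0` for `j ≤ i`, `1` for `i < j ≤ J` (`J + 1` = first block behind `i` with `x`), `2` behind: `X (P+u) 1 | 1^m | X c`: NT2. -/
def NfrStmt : Prop :=
  ∀ (n k : ℕ) (θ : FIC) (B B' : ℕ → List ℕ), BG n (RR θ) → Fam n k B B' →
    RR θ (asm k B) (asm k B') → ∀ i x a, i ≤ k → x ≠ a → 2 ≤ (B i).count x → (B i).count a = 1 →
      ¬ (cb (B i) x a = (B i).count x ↔ cb (B' i) x a = (B' i).count x) →
        (Rg k B i x a → (∀ j, i < j → j ≤ k → x ∉ B j) → Al0 n (RR θ)) ∧
        (Rg k B i x a → (∃ j, i < j ∧ j ≤ k ∧ x ∈ B j) → Al1 n (RR θ)) ∧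
        (Rg k B i a x → (∃ j, i < j ∧ j ≤ k ∧ x ∈ B j) → Al2 n (RR θ))

/-- **NFL** (uses PSL, PBI, SPT, EVL, NTZ, NTR, NTP).  The left state of a rigid pair.
PROOF.  By symmetry let `cb (B i) x a = 0` and `1 ≤ cb (B' i) x a`; `J` as in NFD.  No `x` in `pre B i`: the map of NFD: `1 :: (X v ++ 2 :: 1^m)` and
`X u' ++ 1 :: (X v' ++ 2 :: 1^m')`, `1 ≤ u'`: NTZ (no `x` before `i` in `B'` either).  One or more `x` in `pre B i` (then `1 ≤ i`): `k' = 2`: `f j = 0` for `j < i`, `1` for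
`i ≤ j ≤ J`, `2` for `j > J`: `X p | 1 X v | 1^m` and `X p' | X u' 1 X v' | 1^m'` with `p = (pre B i).count x`; `p = 1` gives `p' = 1` (NTR), `2 ≤ p` gives
`2 ≤ p'` (NTP) by `EqT`.  (`x` is not a separator, so the count in `pre B i` is the sum of the entries before `i`.) -/
def NflStmt : Prop :=
  ∀ (n k : ℕ) (θ : FIC) (B B' : ℕ → List ℕ), BG n (RR θ) → Fam n k B B' →
    RR θ (asm k B) (asm k B') → ∀ i x a, i ≤ k → x ≠ a → 2 ≤ (B i).count x → (B i).count a = 1 →
      Rg k B i x a → ¬ (cb (B i) x a = 0 ↔ cb (B' i) x a = 0) →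
        ((pre B i).count x = 0 → Ze n (RR θ)) ∧ ((pre B i).count x = 1 → Rh n (RR θ)) ∧
        (2 ≤ (pre B i).count x → Rh' n (RR θ))

/-- **NFK** (uses PSL, PBI, SPT, EVL, NTK).  Two light letters with the pattern `a..b` or `b..a`.
PROOF.  `Rg k B i a b`: all blocks with `a` behind `i` stand before all blocks with `b` (both exist).  `k' = 2`: `f j = 0` for `j ≤ i`, `1` up to the
block before the first block with `b`, `2` behind; `σ a = [0]`, `σ b = [1]`: `0 1 | 0^r | 1^q` (there is no `a`, `b` before block `i`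
by `Gm`) and `1 0 | 0^r' | 1^q'`: NTK.  `Rg k B i b a`: the same with `a`, `b` and `B`, `B'` exchanged. -/
def NfkStmt : Prop :=
  ∀ (n k : ℕ) (θ : FIC) (B B' : ℕ → List ℕ), BG n (RR θ) → Fam n k B B' →
    RR θ (asm k B) (asm k B') → ∀ i a b, i ≤ k → a ≠ b → (B i).count a = 1 → (B i).count b = 1 →
      cb (B i) a b = 1 → cb (B' i) a b = 0 → (Rg k B i a b ∨ Rg k B i b a) → Ka (RR θ)

/-- **NFS** (uses PSL, PBI, SPT, EVL, NTE, ECD).  Two light letters in different order: `Es`.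
PROOF.  `a`, `b` occur behind `i`; `J + 1` = the first block behind `i` with `a` or `b`; the blocks with `x ∈ R` behind `i` are `≤ J` (`Rg`).  `f j = 0`
for `j ≤ J`, `1` for `j > J`; `k' = 1`, `d = 1`; `σ a = [1]`, `σ b = [2]`, `σ x = X (m x)` for `x ∈ R`, `[]` otherwise.  Block `0`: there is no `a`, `b` in the
blocks `j ≤ J`, `j ≠ i`: `B i = P ++ a :: (Q ++ b :: S)`, `B' i = P' ++ b :: (Q' ++ a :: S')`: `X u 1 X v 2 X w` and `X u' 2 X v' 1 X w'` with
`v = sum of m x (cb (B i) x b - cb (B i) x a)`; block `1`: a list of `1` and `2` with both.  NTE: `Es n v`; `v ≡` the sum of `m x * gap x`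
mod `n`: ECD (1) (`Es` is `Ec` with `T' = [1, 2]`). -/
def NfsStmt : Prop :=
  ∀ (n k : ℕ) (θ : FIC) (B B' : ℕ → List ℕ), BG n (RR θ) → Fam n k B B' →
    RR θ (asm k B) (asm k B') → ∀ i a b, i ≤ k → a ≠ b → (B i).count a = 1 → (B i).count b = 1 →
      cb (B i) a b = 1 → cb (B' i) a b = 0 → ∀ R : List ℕ, R.Nodup →
        (∀ x ∈ R, 2 ≤ (B i).count x ∧ Rg k B i x a ∧ Rg k B i x b) →
          ∀ m : ℕ → ℕ, Es n ((R.map (fun x => m x * gap n (B i) a b x)).sum) (RR θ)

/-- **NFE** (uses PSL, PBI, SPT, EVL, NTE, ECD).  Two light letters in different order, alternating pattern.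
PROOF.  As NFS with the map `f`, `k' = r`, `d = 1`: the blocks with `x ∈ R` behind `i` have `f j = 0` (they stand before all blocks with `a`).  Block
`t ≥ 1` is `1^(m t)` (`t` odd) or `2^(m t)` (`t` even), `m t ≥ 1`: the tail of NTE.  `r ≤ k` is a hypothesis. -/
def NfeStmt : Prop :=
  ∀ (n k : ℕ) (θ : FIC) (B B' : ℕ → List ℕ), BG n (RR θ) → Fam n k B B' →
    RR θ (asm k B) (asm k B') → ∀ i a b, i ≤ k → a ≠ b → (B i).count a = 1 → (B i).count b = 1 →
      cb (B i) a b = 1 → cb (B' i) a b = 0 → ∀ (r : ℕ) (f : ℕ → ℕ), 2 ≤ r → r ≤ k → BMap k r f →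
        (∀ j ≤ i, f j = 0) →
        (∀ j, i < j → j ≤ k → a ∈ B j → f j % 2 = 1) →
        (∀ j, i < j → j ≤ k → b ∈ B j → f j % 2 = 0 ∧ 1 ≤ f j) →
        (∀ t, 1 ≤ t → t ≤ r → ∃ j, i < j ∧ j ≤ k ∧ f j = t ∧
          (t % 2 = 1 → a ∈ B j) ∧ (t % 2 = 0 → b ∈ B j)) →
        (∀ j ≤ k, (∀ j', i < j' → j' ≤ j → a ∉ B j') → f j = 0) →
        ∀ R : List ℕ, R.Nodup → (∀ x ∈ R, 2 ≤ (B i).count x ∧ Rg k B i x a ∧ Rg k B i x b) →
          ∀ m : ℕ → ℕ, Ec n ((R.map (fun x => m x * gap n (B i) a b x)).sum) (alt r) (RR θ)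

end Pool.Agent.MWGR
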