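import Pool.Agent.MWGR.StmtsD

/-!
# Block MWGR, part F: the edges are join prime (rows)

Every row: file `Pool/Agent/HelperNN_MWGR/XXX.lean`, import `Pool.Agent.MWGR.StmtsF`, namespace
`Pool.Agent.MWGR.HNN`, theorem `xxx (hypotheses = rows in uses, in this order) : XxxStmt`.
`JpigStmt`, `BgbStmt`, `LrgStmt` are in `StmtsB.lean` (proved, no hypotheses, in
`Helper48_MWGR/CompB.lean`, `Prin.lean`; use them as hypotheses).  One letter bits: `Has n R β`,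
`Ab n R k a j` of `MWL/Defs.lean`; `FC.ofFIC θ` is the one letter part of `θ`; `(FC.ofFIC θ).R k a b` is
`L1 θ k a b`, i.e. `RR θ (mw k a) (mw k b)`.  Notation in the proofs: `x = 0`, `a = 1`, `~` is `RR θ`.
-/

namespace Pool.Agent.MWGR

open Pool.Agent.Helper14_MV Pool.Agent.Helper2_MV Pool.Agent.MVO Pool.Agent.MWL Pool.Agent.MWS
  Pool.Agent.MWH

/-! ### one letter words -/

/-- **ZAB** (uses MWL.TA1, MWL.TA2).  Absorption in an entry `0` or in a light first entry.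
PROOF.  Let `a i = 0`.  (H) If there is `p < i` with `2 ≤ a p`: TA1, first part, if there is a non-zero entry behind `i`
(`F`), second part otherwise (`E`); this proves the first two statements in this case, and the other ones do
not occur.  (N) Otherwise `∀ p ≤ i, a p ≤ 1` (as `a i = 0`).  If there is an entry `≥ 2` behind `i`: TA1, third part:
`GG n R (lb a i)`; if `lb a i = 0` (no non-zero entry before `i`: the filtered set is empty) this is `G`, otherwise it is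
`D (lb a i - 1)` and `F`; `lb a i = 1` if there is exactly one non-zero entry before `i` (then `D 0`).  If there is no entry
`≥ 2` at all: all entries on `0..k` are `≤ 1`: TA2, second part if there is a non-zero entry behind `i` (`GG n R (lb a i)`
again), third part otherwise (`E`).  In the third statement there is a non-zero entry behind `i` because
`2 ≤ deg k a`.  Fourth statement (`a i = 1`, nothing before): TA1, fourth part, if there is an entry `≥ 2` behind `i`,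
otherwise TA2, first part; `lb a i = 0`. -/
def ZabStmt : Prop :=
  ∀ (n : ℕ) (R : FC), LR n R → ∀ (k : ℕ) (a : ℕ → ℕ) (i : ℕ), i ≤ k → 2 ≤ deg k a →
    Ab n R k a i →
      (a i = 0 → (∃ p < i, a p ≠ 0) → (∃ q, i < q ∧ q ≤ k ∧ a q ≠ 0) → Has n R Bit.F) ∧
      (a i = 0 → (∀ q, i < q → q ≤ k → a q = 0) → Has n R Bit.E) ∧
      (a i = 0 → (∀ p < i, a p = 0) → Has n R Bit.G) ∧
      (a i = 1 → (∀ p < i, a p = 0) → Has n R (Bit.D 0)) ∧
      (a i = 0 → (∃ p < i, a p = 1 ∧ ∀ l < i, l ≠ p → a l = 0) →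
        (∃ q, i < q ∧ q ≤ k ∧ a q ≠ 0) → Has n R (Bit.D 0))

/-- the profiles of `a` and `a'` agree: first entry (and whether it is `1`), last entry, the entries up to
the second one if the first one is `1`; the zero entries, if `R` has not `F` -/
def StbR (n : ℕ) (R : FC) (k : ℕ) (a a' : ℕ → ℕ) : Prop := ∀ i ≤ k,
  ((∀ p < i, a p = 0) → (a i = 1 ↔ a' i = 1) ∧ (a i = 0 ↔ a' i = 0) ∧ ∀ p < i, a' p = 0) ∧
  ((∀ q, i < q → q ≤ k → a q = 0) → (a i = 0 ↔ a' i = 0) ∧ ∀ q, i < q → q ≤ k → a' q = 0) ∧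
  ((∃ p < i, a p = 1 ∧ ∀ l < i, l ≠ p → a l = 0) → (a i = 0 ↔ a' i = 0)) ∧
  (¬ Has n R Bit.F → (a i = 0 ↔ a' i = 0))

/-- **STB** (uses MWL.TRN, MWL.KEY, MWL.ARR, ZAB).
PROOF.  `G` gives `D 0` (ARR), so `R` has none of `D 0`, `E`, `G`.  BASIC: if `a` does not absorb at `i` then `a i = a' i`
(KEY); the same with `a`, `a'` exchanged (`FC.symm`).
(1) Let `a p = 0` for all `p < i`.  If `a' p ≠ 0` for some `p < i` take the smallest one: `a p = 0`, nothing before in `a`: not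
absorbing (ZAB (3), `G`), so `a p = a' p`, contradiction.  If `a i = 0`: the same argument gives `a' i = a i = 0`.  If `a' i = 0`: now
nothing is before `i` in `a'`, so `a'` does not absorb at `i`, `a i = a' i = 0`.  If `a i = 1`: not absorbing (ZAB (4)), so `a' i = 1`;
if `a' i = 1`: the same for `a'`.
(2) the same from the other side with ZAB (2) and `E` (for `a' q ≠ 0`, `q > i`, take the largest one `≤ k`).
(3) Let `p < i`, `a p = 1`, `a l = 0` for the other `l < i`.  By (1) at `p`: `a' p = 1` and nothing is before `p` in `a'`.  Let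
`p < l < i` be the smallest with `a' l ≠ 0`: `a l = 0`, one entry `1` before, and a non-zero entry behind (`2 ≤ deg k a`): by
ZAB (5) `a` does not absorb at `l`, contradiction.  So `a'` has the same entries before `i`.  If `a i = 0`: `a` does not absorb
at `i` (ZAB (5)), `a' i = 0`; if `a' i = 0`: the same for `a'`.
(4) no `F`.  If `a i = 0` and `a` absorbs at `i`: nothing before: `G`; nothing behind: `E`; otherwise `F` (ZAB): contradiction.  So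
`a i = 0` gives `a' i = 0`, and symmetrically. -/
def StbStmt : Prop :=
  ∀ (n : ℕ) (R : FC), LR n R → ND R → ¬ Has n R (Bit.D 0) → ¬ Has n R Bit.E →
    ∀ (k : ℕ) (a a' : ℕ → ℕ), 2 ≤ deg k a → 2 ≤ deg k a' → R.R k a a' → StbR n R k a a'

/-- **STW** (uses MVO.ONE, MWA.NDQ, LRG, STB).  The same for the letters of two related words.
PROOF.  `c ∈ B j` gives `2 ≤ deg k (ty B c)` (`OkB.ml`), so `2 ≤ (asm k B).count c` (`count_asm`), by `CapP` also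
`2 ≤ (asm k B').count c`, so `2 ≤ deg k (ty B' c)` (`count_asm`) and `c` occurs in some block `j ≤ k` of `B'`.  ONE gives
`L1 θ k (ty B c) (ty B' c)`; `ND` by NDQ, `LR` by LRG; STB. -/
def StwStmt : Prop :=
  ∀ (n : ℕ) (β θ : FIC), BasG n β → β ≤ θ → NC2 θ → ¬ Has n (FC.ofFIC θ) (Bit.D 0) →
    ¬ Has n (FC.ofFIC θ) Bit.E → ∀ (k : ℕ) (B B' : ℕ → List ℕ), OkB k B → OkB k B' →
      RR θ (asm k B) (asm k B') → ∀ c, NS k c → (∃ j ≤ k, c ∈ B j) →
        2 ≤ deg k (ty B' c) ∧ StbR n (FC.ofFIC θ) k (ty B c) (ty B' c)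

/-! ### tools -/

/-- **RNM** (uses nothing).  Permutations of the letters.
PROOF.  `u.map π = u.flatMap (fun c => [π c])`: `RR.sub`; backwards with `π.symm` (`List.map_map`).  `JPp`: the first part
for `ρ`, `σ` and `sup ρ σ`. -/
def RnmStmt : Prop :=
  ∀ (π : Equiv.Perm ℕ) (u v : List ℕ), (∀ β : FIC, RR β u v ↔ RR β (u.map π) (v.map π)) ∧
    ∀ β : FIC, JPp β (u, v) ↔ JPp β (u.map π, v.map π)

/-- **MNB** (uses nothing).  Larger congruences.  PROOF.  Field by field, `β ≤ θ` is applied as `h _ _ hr`. -/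
def MnbStmt : Prop :=
  ∀ (n : ℕ) (β θ : FIC), β ≤ θ → (BG n (RR β) → BG n (RR θ)) ∧ (Reg n (RR β) → Reg n (RR θ))

/-- **FRM** (uses nothing).  Lists with few letters.
PROOF.  `List.append_of_mem` for `1` (and `b`), the rest consists of the letter `0` only (`List.eq_replicate_iff`). -/
def FrmStmt : Prop :=
  (∀ l : List ℕ, (∀ c ∈ l, c = 0 ∨ c = 1) →
    (l.count 1 = 1 → ∃ s t, l = X s ++ 1 :: X t ∧ l.count 0 = s + t) ∧
    (l.count 1 = 0 → l = X (l.count 0)) ∧ (l.count 0 = 0 → l = Y (l.count 1))) ∧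
  ∀ (l : List ℕ) (b : ℕ), b ≠ 0 → b ≠ 1 → (∀ c ∈ l, c = 0 ∨ c = 1 ∨ c = b) → l.count 1 = 1 →
    l.count b = 1 → ∃ i j m, l.count 0 = i + j + m ∧
      (l = X i ++ 1 :: (X j ++ b :: X m) ∨ l = X i ++ b :: (X j ++ 1 :: X m))

/-- **DSG** (uses EXG, DCR).  The crossing group.
PROOF.  Let `C` be the set of all `d` with `Dm n d`.  `0 ∈ C` (equal words).  `n ∈ C`: `X(n+n)` before and behind `a` is `~ X n`
(EXG (4) and (1)).  `d, d' ∈ C` gives `d + d' ∈ C`: DCR with `d` (`p = []`, `s = n + d'`, `t = n`, `q = [2, 1]`) and then with `d'`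
(`s = n`, `t = n + d`).  `d ∈ C`, `d ≡ d' [MOD n]` gives `d' ∈ C` (EXG).  So `d, d' ∈ C`, `d' ≤ d` gives `d - d' ∈ C`
(`≡ d + (n-1) d'`).  Let `m` be the smallest positive element of `C` (`Nat.find`, `n` is one); division with remainder:
`C` is the set of the multiples of `m`. -/
def DsgStmt : Prop :=
  ∀ (n : ℕ) (θ : FIC), BG n (RR θ) → ∃ m, 1 ≤ m ∧ m ∣ n ∧ ∀ d, Dm n d (RR θ) ↔ m ∣ d

/-- **ECL** (uses EXG, DCR).  The exchange over a gap: closure.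
PROOF.  (A) `Ec n c T` gives `Ec n (s c) T`: `s = 0`: substitute `0 ↦ []`: `1 :: 2 :: T ~ 2 :: 1 :: T`; multiply with `X n` from the left;
`X n a X n b X n T ~ X n a b X n T` (EXG (3)), but the `X n` behind `b`: take the identity `a b T ~ b a T` only for the
middle: it is simpler to use `0 ↦ X n` in `Ec n c T`: all exponents are multiples of `n`, EXG.  So for every `s` substitute
`0 ↦ X(s + n)` (`s + n ≥ 1`): the exponents are `n (s+n)`, `(n+c)(s+n) ≡ s c`, `..`; all are `≥ 1`, EXG ((4) for the first power, (1)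
for the others; `a`, `b` are multiple because `1, 2 ∈ T`).
(B) `Ec n c T` and `Dm n m` give `Ec n (c + m) T`: `X n a X(n+c+m) b X n T ~ X(n+m) a X(n+c) b X n T` (DCR for `a`, backwards) `~
X(n+c+m) b X(n+(n-1)c) a X(n+c) T` (`Ec n c T` multiplied with `X m`) `~ X(n+c+m) b X(n+(n-1)c+n m) a X(n+c) T` (EXG (1)) `~
X(n+c+m) b X(n+(n-1)(c+m)) a X(n+c+m) T` (DCR for `a`: `n + (n-1)c + n m = (n + (n-1)(c+m)) + m`).
(C) `Ec n c T`, `c ≡ g [MOD n]` gives `Ec n g T` (EXG).  (D) `gcd c m ∣ g` gives `g ≡ s c + t m [MOD n]` with natural numbers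
`s`, `t` (Bezout over the integers, `Nat.gcd_eq_gcd_ab`, add multiples of `n`; or `Nat.exists_mul_mod_eq_gcd`..).  (A), `t` times (B), (C). -/
def EclStmt : Prop :=
  ∀ (n : ℕ) (θ : FIC), BG n (RR θ) → ∀ T : List ℕ, 1 ∈ T → 2 ∈ T → 0 ∉ T → ∀ m c g : ℕ, 1 ≤ m →
    Dm n m (RR θ) → Nat.gcd c m ∣ g → Ec n c T (RR θ) → Ec n g T (RR θ)

/-- **EAT** (uses MWGP.GAP, EXG).  From the tail `|a|b|a` to the others.
PROOF.  `Ec n c T` gives `Ec n c (T ++ T')` (multiplication from the right), and `alt k = alt 3 ++ T'` for `3 ≤ k`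
(`List.range_add` or `List.range_eq_append`..; `alt 3 = [3, 1, 4, 2, 5, 1]`).  `Es n c`: in `Ea n c` substitute `4 ↦ []`, `5 ↦ Y (n - 1)`: the tail is
`[3, 1, 2] ++ Y n`; the letters behind `3` are non-first occurrences: `[3, 1, 2] ++ Y n ~ 3 :: (Y (n+1) ++ [2])` (GAP (2), `n` times)
`~ [3, 1, 2]` (EXG (1)). -/
def EatStmt : Prop :=
  ∀ (n : ℕ) (θ : FIC), BG n (RR θ) → ∀ c : ℕ, Ea n c (RR θ) →
    Es n c (RR θ) ∧ ∀ k, 3 ≤ k → Ec n c (alt k) (RR θ)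

/-- **E0T** (uses EXG, ECL).  If everything crosses then everything is exchanged.
PROOF.  `Es n 0`: `X n a X n b X n | ab ~ X n a b X n | ab` (EXG (3), exponent `n` to `0`) `~ X n b a X n | ab` (`BG.f` with `p = X n`,
`q = X n ++ [3]`, `c = r = []`) `~ X n b X n a X n | ab`.  `Ec n 0 (alt k)`, `3 ≤ k`: the same with `Kaba` (`0 ↦ [1]`, `1 ↦ [2]`, `2 ↦ X n ++ [3]`,
`3 ↦ [4]`, `4 ↦ [5]`; `alt k = [3,1,4,2,5,1] ++ T'`) in place of `f`.  Then ECL with `c = 0`, `m = 1`. -/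
def E0tStmt : Prop :=
  ∀ (n : ℕ) (θ : FIC), BG n (RR θ) → Dm n 1 (RR θ) → ∀ c : ℕ, Es n c (RR θ) ∧
    (Kaba (RR θ) → ∀ k, 3 ≤ k → Ec n c (alt k) (RR θ))

/-- **IMP** (uses nothing).  PROOF.  `Al1`: in `Al0` substitute `2 ↦ [2, 0, 3]`.  `Al2`: multiply `Al0` with `[3, 0]`.  `Rh`: in `Ze` substitute
`2 ↦ [3]`, multiply with `[0, 2]` from the left.  `Rh'`: multiply `Rh` with `[0]` from the left. -/
def ImpStmt : Prop :=
  ∀ (n : ℕ) (θ : FIC), (Al0 n (RR θ) → Al1 n (RR θ) ∧ Al2 n (RR θ)) ∧ (Ze n (RR θ) → Rh n (RR θ)) ∧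
    (Rh n (RR θ) → Rh' n (RR θ))

/-- **EAL** (uses MWGP.GAP, EXG).  The bit `E` gives all edges.
PROOF.  `Has E` is `RR θ [0,0,2] ([0,0,2] ++ X(2n))` (unfold `Has`, `Ab`, `mw`).  (i) For every letter `y` and all words `p, w, q`:
`p y w y q ~ p y w y q y^(2n)`: EXG (1): `p y w y q ~ p y w y^(n+1) q = p y w y^2 y^(n-1) q`, `E` with `0 ↦ [y]`, `2 ↦ y^(n-1) q` gives
`y² y^(n-1) q ~ y² y^(n-1) q y^(2n)`, and back.
(ii) If `x` and `a` occur in `q` in the order `a c x` with `x`, `a` the only letters of `c`: `p x a q ~ p a x q` by `BG.f` for the pair `(a, x)`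
(symmetry), all letters are multiple.
`Dm n 1`: `X(n+1) a X n | a ~ X(n+1) a X n | a x^(2n)` by (i); move the `x` behind `a` to the left of `a` one after the other by (ii) (the
later block is `a x^(2n)`): `~ X(2n+1) a | a x^(2n)`; the same for `X n a X(n+1) | a`.
`Al0`: `x² a | a ~ x² a | a x^(2n) ~ X(n+2) a | a x^(2n)` (EXG (2)) `~ x² a X n | a x^(2n) ~ x² a X n | a`.  `Ze`: `a x² | a ~ a x² | a x^(2n) ~ x² a | a x^(2n) ~
X(n+2) a | a x^(2n) ~ X n a x² | a x^(2n) ~ X n a x² | a`.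
`Ka` (`a = 0`, `b = 1`): `ab | a | b ~ ab | a | b a^(2n)` by (i) for `y = a`; `f` for the pair `(b, a)` (later factor `b a`), and back. -/
def EalStmt : Prop :=
  ∀ (n : ℕ) (θ : FIC), BG n (RR θ) → Has n (FC.ofFIC θ) Bit.E →
    Al0 n (RR θ) ∧ Ze n (RR θ) ∧ Ka (RR θ) ∧ Dm n 1 (RR θ)

/-- **DAL** (uses EXG).  The bit `D 0` gives all edges.
PROOF.  `Has (D 0)` is `RR θ [0,2,0,0] (X(2n+1) ++ [2,0,0])`.  (i) `p y w y q ~ p y^(2n+1) w y q` for all words: EXG (1):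
`y w y ~ y w y^(n+1) = y w y² y^(n-1)`, `D 0` with `0 ↦ [y]`, `2 ↦ w`, multiply, and back.  (ii) `x^s y^t ~ y^t x^s` for `s, t ≥ 2`: choose
`s' ≡ s`, `t' ≡ t` (mod `n`) with `s', t' ≥ n + 1`, `s' = (n+1) + s0 n`... : EXG (2) changes `s`, `t` to multiples: it is enough to have
`x^(n+1+i) y^(n+1+j) ~ y^(n+1+j) x^(n+1+i)`: `rn` gives that `X := x^(n+1)` and `Y := y^(n+1)` commute; `x^s ~ x^((n+1) s)` because
`(n+1) s ≡ s` (EXG (2)), a power of `X`; the same for `y^t`; powers of commuting words commute.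
`Al0`: `x² a | a ~ x² a^(2n+1) | a ~ X(n+2) a^(2n+1) | a ~ x² (X n a^(2n+1)) | a`; if `n = 1` the factor `X n` is a single letter, so use
`X(n+2) = x² X n ~ x² X(2n)` (EXG (1)): `x² X(2n) a^(2n+1) ~ x² a^(2n+1) X(2n)` (ii) `~ x² a X n` (i), EXG (1).  `Ze`: `a x² | a ~ a^(2n+1) x² | a ~
x² a^(2n+1) | a ~ X(2n) x² a^(2n+1) | a ~ X(2n) a^(2n+1) x² | a ~ X(2n) a x² | a ~ X n a x² | a` (EXG (2), (4)).  `Dm n 1`: both sides are
`~ X(2n+1) a^(2n+1) | a` (exponents `≥ 2` can be achieved by EXG).  `Ka`: `ab | a | b ~ a^(2n+1) b^(2n+1) | a | b ~ b^(2n+1) a^(2n+1) | a | b`. -/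
def DalStmt : Prop :=
  ∀ (n : ℕ) (θ : FIC), BG n (RR θ) → Has n (FC.ofFIC θ) (Bit.D 0) →
    Al0 n (RR θ) ∧ Ze n (RR θ) ∧ Ka (RR θ) ∧ Dm n 1 (RR θ)

/-- **FAL** (uses EXG).  The bit `F`.
PROOF.  `Has F` is `RR θ [0,0,2,3,0,0] ([0,0,2] ++ X(2n) ++ [3,0,0])`; EXG (1) changes `X(2n)` to `X n`: this is `F1 n`; and backwards.
(i) for all words `w, v` and a letter `y`: `y² w v y² ~ y² w y^n v y²` (substitution `0 ↦ [y]`, `2 ↦ w`, `3 ↦ v`), and a non-first `y` is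
`~ y^(n+1)`, which contains `y²`.  `Al1`: `x² a | x | a`: (i) with `w = a`, `v = |` (the block `x` is `~ X(n+1)`).  `Al2`: `w = a`, `v = |a|`, the last
letter `x`.  `Rh'`: `x² | a x² | a`: `w = |`, `v = a`.  `Ec n c (alt k)` from `Es n c`, `3 ≤ k`: `alt k = [3,1,4,2,5,1] ++ T'`.  (i) for `y = a = 1`: the
occurrences of `a` in `|a|` and in the last `a` are non-first, so `[3,1,4,2,5,1] ~ [3,1,4] ++ Y n ++ [2,5,1]` behind `X n a X(n+c) b X n` and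
behind `X(n+c) b X(..) a X(n+c)`.  `Es n c` with `3 ↦ [3,1,4] ++ Y (n-1)`, multiplied with `[5,1] ++ T'`. -/
def FalStmt : Prop :=
  ∀ (n : ℕ) (θ : FIC), BG n (RR θ) → (Has n (FC.ofFIC θ) Bit.F ↔ F1 n (RR θ)) ∧
    (F1 n (RR θ) → Al1 n (RR θ) ∧ Al2 n (RR θ) ∧ Rh' n (RR θ) ∧
      ∀ c k, 3 ≤ k → Es n c (RR θ) → Ec n c (alt k) (RR θ))

/-- **FES** (`FesFStmt`; uses EXG, ECL).  `FE n 1` gives all `Es n c`.
PROOF.  `FE n 1` with `p = q' ..`: `p = []`, `x = 0`, `a = 1`, `b = 2`, `q = [3]`, `w = r = []` is `Es n 1` (as `n + (n-1) * 1`; the words agree).  ECL with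
`c = 1`, `m = n` (`Dm n n` holds by EXG), `T = [3,1,2]`. -/
def FesFStmt : Prop :=
  ∀ (n : ℕ) (θ : FIC), BG n (RR θ) → FE n 1 (RR θ) → ∀ c, Es n c (RR θ)

/-! ### numbers -/

/-- **ARD** (uses nothing).
PROOF.  `M = p^(v+1)`, `v = m.factorization p`.  `M ∤ m`.  Let `d ∣ n`, `¬ d ∣ m`.  `d ∣ m * p^e`.  If `¬ M ∣ d` then
`d.factorization p ≤ v`, and `d.factorization l ≤ (m * p^e).factorization l = m.factorization l` for `l ≠ p`; so `d ∣ m`
(`Nat.factorization_le_iff_dvd`), a contradiction. -/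
def ArdStmt : Prop :=
  ∀ n m p e : ℕ, 1 ≤ n → m ≠ 0 → p.Prime → n ∣ m * p ^ e →
    ∃ M, ¬ M ∣ m ∧ ∀ d, d ∣ n → ¬ d ∣ m → M ∣ d

/-- **ARP** (uses nothing).
PROOF.  `M = ∏ p ∈ n.primeFactors with P p, p^(g.factorization p + 1)`.  First: for each such `p` there is `e` with `p^e ∣ m`,
`¬ p^e ∣ g`, so `g.factorization p < e` and `p^(g.factorization p + 1) ∣ m`; powers of different primes are coprime
(`Finset.prod_dvd_of_coprime` or `Finset.prod_primes_dvd`-like).  Second: `Nat.dvd_iff_prime_pow_dvd_dvd`: let `p^e ∣ gcd c m`, `p` prime, `e ≥ 1`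
(`e = 0` trivial).  `p ∣ m`, so `p ∣ n` and `P p`; if `¬ p^e ∣ g` then `e ≥ g.factorization p + 1`, so `p^(g.factorization p + 1)` divides `c` and `M`,
hence `g` (`c ≡ g [MOD M]`), contradiction. -/
def ArpStmt : Prop :=
  ∀ n g : ℕ, 1 ≤ n → 1 ≤ g → ∀ P : ℕ → Prop, ∃ M,
    (∀ m, m ∣ n → (∀ p, p.Prime → p ∣ n → P p → ¬ ∀ e, p ^ e ∣ m → p ^ e ∣ g) → M ∣ m) ∧
    (∀ c m, m ∣ n → (∀ p, p.Prime → p ∣ n → ¬ P p → ¬ p ∣ m) → c ≡ g [MOD M] →
      Nat.gcd c m ∣ g)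

/-- **HLL** (uses MNB, ECL, EAT).  The coprime condition of the region.
PROOF.  `q := p^(n.factorization p)`, `r := n / q`: `q * r = n`, coprime.  `hall`: not `Dm n r (RR β)`, so `Ea n q (RR β)`, hence in `θ`,
and EAT (`Es n q` is `Ec n q [3,1,2]`): `Ec n q T (RR θ)` (`1, 2 ∈ T`, `0 ∉ T` in both cases).  Suppose `∀ e, p^e ∣ m → p^e ∣ g`.
`gcd q m` is a power of `p` which divides `m`, so it divides `g`; `Dm n m (RR θ)` (`m ∣ m`): ECL gives `Ec n g T (RR θ)`,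
contradiction. -/
def HllStmt : Prop :=
  ∀ (n : ℕ) (β θ : FIC), Reg n (RR β) → β ≤ θ → ∀ (T : List ℕ),
    (T = [3, 1, 2] ∨ ∃ k, 3 ≤ k ∧ T = alt k) → ∀ g m : ℕ, 1 ≤ m → m ∣ n →
      (∀ d, Dm n d (RR θ) ↔ m ∣ d) → ¬ Ec n g T (RR θ) → ∀ p, p.Prime → p ∣ n →
        ¬ Dm n (n / p ^ (n.factorization p)) (RR β) → ¬ ∀ e, p ^ e ∣ m → p ^ e ∣ g

/-- **AEX** (uses MNB, DSG, ECL, ARP, HLL).  The arithmetic of the edges `Ec n g T`, all in one.
PROOF.  If every `θ ≥ β` with `NC2 θ` contains `Ec n g T`: the left alternative.  Otherwise let `θ0` be one without it.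
ARP with `P p := ¬ Dm n (n / p^(n.factorization p)) (RR β)`: `M`.  (`1 ≤ g` because `g ∣ n`, `1 ≤ n`.)  For every `θ ≥ β` without
`Ec n g T`: DSG: `m`; HLL: `M ∣ m`, so `Dm n d` in `θ` gives `m ∣ d`, `M ∣ d`; and `M ∣ m ∣ n` (this for `θ0` gives `M ∣ n`).  Third
statement: suppose `Ec n c T` in `θ`, `c ≡ g [MOD M]`.  For a prime `p ∣ n` with `Dm n (n / p^(..)) (RR β)`: `m ∣ n / p^(n.factorization p)`, so
`¬ p ∣ m` (`Nat.not_dvd_ordCompl`).  ARP: `gcd c m ∣ g`, ECL: `Ec n g T` in `θ`, contradiction. -/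
def AexStmt : Prop :=
  ∀ (n : ℕ) (β : FIC), Reg n (RR β) → ∀ (T : List ℕ),
    (T = [3, 1, 2] ∨ ∃ k, 3 ≤ k ∧ T = alt k) → ∀ g, g ∣ n →
      (∀ θ : FIC, β ≤ θ → Ec n g T (RR θ)) ∨
      ∃ M, M ∣ n ∧ ∀ θ : FIC, β ≤ θ → ¬ Ec n g T (RR θ) →
        (∀ d, Dm n d (RR θ) → M ∣ d) ∧ ∀ c, c ≡ g [MOD M] → ¬ Ec n c T (RR θ)

/-! ### the edges are join prime

GENERAL SCHEME.  `l = asm k B0`, `r = asm k B1` with `B0`, `B1` given by short lists of blocks
(`fun j => L.getD j []`; `asm 1 B = B 0 ++ 2 :: B 1`, `asm 2 B = (B 0 ++ 2 :: B 1) ++ 3 :: B 2`).  `JPIG` (with `CapP β` from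
`BGB`: `(bgb n β h).1.cap`) and an invariant set `A` of families (only the blocks `0..k` matter).  Invariance: let `θ ≥ β`,
`NC2 θ`, `θ` without the edge, `B`, `B'` as in JPIG, `A B`.  `θ` has neither `E` nor `D 0` (MNB, EAL, DAL, IMP: they
would give the edge).  The letters of `B`, `B'` in the blocks `0..k` are letters of `B0` (`Sub`).  STW for the letters of
`B0` gives the profile of `B'`; with `2 ≤ deg k (ty B' c)` and FRM this gives the blocks of `B'`.  Either `A B'`, or the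
NT lemma (rewrite `asm k B`, `asm k B'` as literal words) gives the edge in `θ`, a contradiction.
-/

/-- **JA0** (uses JPIG, BGB, MNB, STW, FRM, EAL, DAL, NT0).
PROOF.  `k = 1`, `B0 = [[0,0,1],[1]]`, `B1 = [[0,0,1] ++ X n, [1]]`, `A B := ∃ s r, 2 ≤ s ∧ 1 ≤ r ∧ B 0 = X s ++ [1] ∧ B 1 = Y r`.
Letter `1`, `i = 0`: `(B' 0).count 1 = 1`; then `1 ≤ (B' 1).count 1` (degree).  Letter `0`, `i = 1` (nothing behind): `0 ∉ B' 1`.  So
`B' 0 = X s' ++ 1 :: X t'`, `2 ≤ s' + t'`, `B' 1 = Y r'`.  `t' = 0`: `A B'`; `1 ≤ t'`: NT0. -/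
def Ja0Stmt : Prop := ∀ (n : ℕ) (β : FIC), BG n (RR β) → JPp β (Ed.al0.l n, Ed.al0.r n)

/-- **JA1** (uses JPIG, BGB, MNB, STW, FRM, IMP, EAL, DAL, NT1).
PROOF.  `k = 2`, `B0 = [[0,0,1],[0],[1]]`, `A B := ∃ s c r, 2 ≤ s ∧ 1 ≤ c ∧ 1 ≤ r ∧ B 0 = X s ++ [1] ∧ B 1 = X c ∧ B 2 = Y r`.  Letter `1` (type
`(1,0,r)`): `i = 0`: `1`; `i = 1`, third clause of `StbR`: `0`; so `1 ≤` the entry `2`.  Letter `0` (type `(s,c,0)`): `i = 0`, first clause:
`≠ 0`, `≠ 1`; `i = 1`, second clause (nothing behind): `≠ 0`, and `(B' 2).count 0 = 0`.  So `B' = (X s' 1 X t' | X c' | Y r')`, NT1 if `1 ≤ t'`. -/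
def Ja1Stmt : Prop := ∀ (n : ℕ) (β : FIC), BG n (RR β) → JPp β (Ed.al1.l n, Ed.al1.r n)

/-- **JA2** (uses JPIG, BGB, MNB, STW, FRM, IMP, EAL, DAL, FAL, NT2).
PROOF.  `k = 2`, `B0 = [[0,0,1],[1],[0]]`, `A B := ∃ s r c, .. B 0 = X s ++ [1] ∧ B 1 = Y r ∧ B 2 = X c`.  `θ` has not `F` (FAL: it gives `Al2`).
Letter `0` (type `(s,0,c)`): fourth clause for `i = 1, 2`, first clause for `i = 0`.  Letter `1` (type `(1,r,0)`): `i = 0`: `1`; `i = 1`, second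
clause: `≠ 0` and `(B' 2).count 1 = 0`.  NT2. -/
def Ja2Stmt : Prop := ∀ (n : ℕ) (β : FIC), BG n (RR β) → JPp β (Ed.al2.l n, Ed.al2.r n)

/-- **JZE** (uses JPIG, BGB, MNB, STW, FRM, EAL, DAL, NTZ).
PROOF.  As JA0: `B0 = [[1,0,0],[1]]`, `B1 = [X n ++ [1,0,0],[1]]`, `A B := ∃ t r, 2 ≤ t ∧ 1 ≤ r ∧ B 0 = 1 :: X t ∧ B 1 = Y r`.  NTZ if `1 ≤ s'`. -/
def JzeStmt : Prop := ∀ (n : ℕ) (β : FIC), BG n (RR β) → JPp β (Ed.ze.l n, Ed.ze.r n)

/-- **JRH** (uses JPIG, BGB, MNB, STW, FRM, IMP, EAL, DAL, NTR).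
PROOF.  `k = 2`, `B0 = [[0],[1,0,0],[1]]`, `A B := ∃ t r, 1 ≤ t ∧ 1 ≤ r ∧ B 0 = [0] ∧ B 1 = 1 :: X t ∧ B 2 = Y r`.  Letter `0` (type `(1,t,0)`): `i = 0`: `1`;
`i = 1`, third clause: `≠ 0`; second clause: `(B' 2).count 0 = 0`.  Letter `1` (type `(0,1,r)`): `i = 1`, first clause: `1`, and
`(B' 0).count 1 = 0`; so `1 ≤ (B' 2).count 1`.  `B' = (0 | X s' 1 X t' | Y r')`, `1 ≤ s' + t'`; `1 ≤ s'`: NTR. -/
def JrhStmt : Prop := ∀ (n : ℕ) (β : FIC), BG n (RR β) → JPp β (Ed.rh.l n, Ed.rh.r n)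

/-- **JRP** (uses JPIG, BGB, MNB, STW, FRM, IMP, EAL, DAL, NTP).
PROOF.  As JRH: `B0 = [[0,0],[1,0,0],[1]]`, `A B := ∃ h t r, 2 ≤ h ∧ .. B 0 = X h ..`.  Letter `0` (type `(h,t,0)`): first clause (`i = 0`), second clause
(`i = 1`).  NTP. -/
def JrpStmt : Prop := ∀ (n : ℕ) (β : FIC), BG n (RR β) → JPp β (Ed.rh'.l n, Ed.rh'.r n)

/-- **JKA** (uses JPIG, BGB, MNB, STW, FRM, EAL, DAL, NTK).
PROOF.  `k = 2`, `B0 = [[0,1],[0],[1]]`, `B1 = [[1,0],[0],[1]]`, `A B := ∃ r q, 1 ≤ r ∧ 1 ≤ q ∧ B 0 = [0,1] ∧ B 1 = X r ∧ B 2 = Y q`.  Letter `0` (type `(1,r,0)`):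
`i = 0`: `1`; `i = 1`: `≠ 0`, nothing behind.  Letter `1` (type `(1,0,q)`): `i = 0`: `1`; `i = 1`, third clause: `0`; so `≥ 1` at `2`.  `B' 0` is
`[0,1]` or `[1,0]`; the latter: NTK. -/
def JkaStmt : Prop := ∀ (n : ℕ) (β : FIC), BG n (RR β) → JPp β (Ed.ka.l n, Ed.ka.r n)

/-- **JDM** (uses JPIG, BGB, MNB, STW, FRM, EAL, DAL, DSG, NTD, ARD).
PROOF.  `m = 0`: the words are equal.  If all `θ ≥ β` have `Dm n m` trivial.  Otherwise ARD: `M`; for every `θ ≥ β` without `Dm n m`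
DSG gives `m'` with `m' ∣ n`, `¬ m' ∣ m`, so `M ∣ m'`, `M ∣ n` (one such `θ` exists), and `Dm n d` in `θ` gives `M ∣ d`.  `k = 1`,
`B0 = [X(n+m) ++ 1 :: X n, [1]]`, `B1 = [X n ++ 1 :: X(n+m), [1]]`, `A B := ∃ i j r, 2 ≤ i + j ∧ 1 ≤ r ∧ B 0 = X i ++ 1 :: X j ∧ B 1 = Y r ∧
i ≡ n + m [MOD M]`; not `A B1` because `¬ M ∣ m`.  (`θ` has neither `E` nor `D 0`: they give `Dm n 1`, so `Dm n m` by DSG.)  As in JA0
`B' 0 = X i' ++ 1 :: X j'`, `B' 1 = Y r'`; NTD: `M ∣ i + (n-1) i'`, so `i ≡ i' [MOD M]` as `M ∣ n`. -/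
def JdmStmt : Prop :=
  ∀ (n : ℕ) (β : FIC), BG n (RR β) → ∀ m p e : ℕ, p.Prime → n ∣ m * p ^ e →
    JPp β ((Ed.dm m).l n, (Ed.dm m).r n)

/-- **JES** (uses JPIG, BGB, MNB, RNM, STW, FRM, EAL, DAL, E0T, AEX, NTD, NTS).
PROOF.  AEX with `T = [3,1,2]`.  First alternative: trivial.  Otherwise `M`.  RNM with `π = Equiv.swap 2 3`: the letters are `0, 1, 3`, the
separator is `2`: `k = 1`, `B0 = [X n ++ 1 :: (X(n+g) ++ 3 :: X n), [1,3]]`, `B1` similarly.  `A B := ∃ i j l, 2 ≤ i + j + l ∧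
B 0 = X i ++ 1 :: (X j ++ 3 :: X l) ∧ (∀ c ∈ B 1, c = 1 ∨ c = 3) ∧ 1 ∈ B 1 ∧ 3 ∈ B 1 ∧ j ≡ g [MOD M]`.  `A B0` as `M ∣ n`; not `A B1` (the `3`
is before the `1`).  `E` or `D 0` give `Dm n 1` and then the edge by E0T.  Profile: letters `1` and `3`: exactly one in block `0`, at least one
in block `1`; letter `0`: none in block `1`, so `≥ 2` in block `0`.  FRM (`b = 3`).  (a) `B' 0 = X i' 1 X j' 3 X l'`: delete the letter `3` in
`RR θ (asm 1 B) (asm 1 B')`: NTD: `M ∣ i + (n-1) i'`; delete the letter `1` and rename `3` to `1`: NTD: `M ∣ (i+j) + (n-1)(i'+j')`; so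
`j ≡ j' [MOD M]`, `A B'`.  (b) `B' 0 = X i' 3 X j' 1 X l'`: apply `π` and NTS: `Es n j` in `θ`, contradiction to AEX (`j ≡ g`). -/
def JesStmt : Prop :=
  ∀ (n : ℕ) (β : FIC), Reg n (RR β) → ∀ g, g ∣ n → JPp β ((Ed.es g).l n, (Ed.es g).r n)

/-- **RNE** (uses nothing).  Renaming for alternating tails.
PROOF.  `π` is the cycle `2 ↦ 3 ↦ .. ↦ k + 2 ↦ 2` (e.g. the inverse of `finRotate`, or define it directly: `π c = c + 1` for `2 ≤ c ≤ k+1`,
`π (k+2) = 2`, otherwise `π c = c`, with the obvious inverse).  The formula: `asm k B = B 0 ++ (List.range k).flatMap (fun j => (j+2) :: B (j+1))` by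
induction on `k` (`List.range_succ`), then `List.map_append`, `List.map_flatMap`. -/
def RneStmt : Prop :=
  ∀ k : ℕ, ∃ π : Equiv.Perm ℕ, π 0 = 0 ∧ π 1 = 1 ∧ π (k + 2) = 2 ∧ ∀ B : ℕ → List ℕ,
    (asm k B).map π = (B 0).map π ++
      (List.range k).flatMap (fun j => (3 + j) :: (B (j + 1)).map π)

/-- **JEP** (uses JPIG, BGB, MNB, RNM, RNE, STW, FRM, EAL, DAL, FAL, FES, E0T, AEX, NTD, NTQ).
PROOF.  As JES with `T = alt k`.  `fe`: not `F1`, so `FE n 1` in `β` and all `Es n c` (FES).  The words in the form `asm k`: letters `0`, `1`,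
`b = k + 2`, separators `2..k+1` (RNE, RNM): `B0 0 = X n ++ 1 :: (X(n+g) ++ b :: X n)`, `B0 j = [1]` for odd `j`, `[b]` for even `j ≥ 2`; `B1` the same
with the other block `0`.  `θ` has not `F` (FAL: `Es n g` and `F1` give `Ec n g (alt k)`), so by the fourth clause of `StbR` the empty blocks
of every letter are the same in `B` and `B'`.  `A B := ∃ i j l, ∃ r : ℕ → ℕ, 2 ≤ i + j + l ∧ B 0 = X i ++ 1 :: (X j ++ b :: X l) ∧ (∀ t, 1 ≤ t → t ≤ k → 1 ≤ r t ∧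
B t = replicate (r t) (if t % 2 = 1 then 1 else b)) ∧ j ≡ g [MOD M]`.  For `B'`: block `t ≥ 1` odd contains no `0`, no `b`, and a letter `1`; even: the
same with `b`; block `0`: the entry of `1` is `1` (first clause), of `b` too, and `≥ 2` letters `0`.  (a) order `1`, `b`: delete `b` (and the separators
`3..k+1`): `X i 1 X(j+l) 2 1^m`, NTD; delete `1` and the separators except `2`, rename `b` to `1`: NTD.  (b) order `b`, `1`: apply `π`: this is the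
hypothesis of NTQ (`altm k (fun j => r (j+1))`): `Ec n j (alt k)` in `θ`, contradiction to AEX. -/
def JepStmt : Prop :=
  ∀ (n : ℕ) (β : FIC), Reg n (RR β) → ¬ F1 n (RR β) → ∀ k g, 3 ≤ k → g ∣ n →
    JPp β ((Ed.ep k g).l n, (Ed.ep k g).r n)

end Pool.Agent.MWGR
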