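import Pool.Agent.MWGR.DefsC

/-!
# Block MWGR: monotonicity of the identities
-/

namespace Pool.Agent.MWGR

open Pool.Agent.Helper14_MV Pool.Agent.Helper2_MV Pool.Agent.MVO Pool.Agent.MWL Pool.Agent.MWS
  Pool.Agent.MWH

theorem bg_mono {n : ℕ} {β θ : FIC} (h : BG n (RR β)) (hle : β ≤ θ) : BG n (RR θ) where
  pos := h.pos
  per := hle _ _ h.per
  ga := hle _ _ h.ga
  rn := hle _ _ h.rn
  f := fun p q c r x y hm => hle _ _ (h.f p q c r x y hm)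
  it := fun p w w' q x hm => hle _ _ (h.it p w w' q x hm)

theorem kaba_mono {β θ : FIC} (h : Kaba (RR β)) (hle : β ≤ θ) : Kaba (RR θ) := hle _ _ h

theorem fe_mono {n c : ℕ} {β θ : FIC} (h : FE n c (RR β)) (hle : β ≤ θ) : FE n c (RR θ) :=
  fun p q w r x a b h1 h2 h3 hm => hle _ _ (h p q w r x a b h1 h2 h3 hm)

theorem edin_mono {n : ℕ} {β θ : FIC} {e : Ed} (h : EdIn n (RR β) e) (hle : β ≤ θ) :
    EdIn n (RR θ) e := hle _ _ h

theorem reg_mono {n : ℕ} {β θ : FIC} (h : Reg n (RR β)) (hle : β ≤ θ) : Reg n (RR θ) where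
  toBG := bg_mono h.toBG hle
  k := kaba_mono h.k hle
  fe := by
    rcases h.fe with h1 | ⟨h1, h2⟩
    · exact Or.inl (fe_mono h1 hle)
    · refine Or.inr ⟨hle _ _ h1, ?_⟩
      rcases h2 with h2 | h2
      · exact Or.inl (hle _ _ h2)
      · exact Or.inr (hle _ _ h2)
  hall := fun q r h1 h2 => by
    rcases h.hall q r h1 h2 with h3 | h3
    · exact Or.inl (hle _ _ h3)
    · exact Or.inr (hle _ _ h3)

/-- the edges and the literal identities -/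
theorem edin_al0 {n : ℕ} {S : List ℕ → List ℕ → Prop} : EdIn n S Ed.al0 ↔ Al0 n S := Iff.rfl
theorem edin_al1 {n : ℕ} {S : List ℕ → List ℕ → Prop} : EdIn n S Ed.al1 ↔ Al1 n S := Iff.rfl
theorem edin_al2 {n : ℕ} {S : List ℕ → List ℕ → Prop} : EdIn n S Ed.al2 ↔ Al2 n S := Iff.rfl
theorem edin_ze {n : ℕ} {S : List ℕ → List ℕ → Prop} : EdIn n S Ed.ze ↔ Ze n S := Iff.rfl
theorem edin_rh {n : ℕ} {S : List ℕ → List ℕ → Prop} : EdIn n S Ed.rh ↔ Rh n S := Iff.rfl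
theorem edin_rh' {n : ℕ} {S : List ℕ → List ℕ → Prop} : EdIn n S Ed.rh' ↔ Rh' n S := Iff.rfl
theorem edin_ka {n : ℕ} {S : List ℕ → List ℕ → Prop} : EdIn n S Ed.ka ↔ Ka S := Iff.rfl
theorem edin_dm {n m : ℕ} {S : List ℕ → List ℕ → Prop} : EdIn n S (Ed.dm m) ↔ Dm n m S := Iff.rfl
theorem edin_es {n c : ℕ} {S : List ℕ → List ℕ → Prop} : EdIn n S (Ed.es c) ↔ Es n c S := Iff.rfl
theorem edin_ep {n k c : ℕ} {S : List ℕ → List ℕ → Prop} :
    EdIn n S (Ed.ep k c) ↔ Ec n c (alt k) S := Iff.rfl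

end Pool.Agent.MWGR
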