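import Pool.Agent.MWGR.DefsC

/-!
# Block MWGR, part D: small words (rows)

Every row: file `Pool/Agent/HelperNN_MWGR/XXX.lean`, import `Pool.Agent.MWGR.StmtsD` (rows of part F:
`Pool.Agent.MWGR.StmtsF`), namespace `Pool.Agent.MWGR.HNN`, theorem
`xxx (hypotheses = rows in uses, in this order) : XxxStmt`.  `RR θ u v` is the congruence on lists
(`RR.refl, symm, append, sub, filter` in `Helper2_MV/Keep.lean`; transitivity is `θ.trans`).
`MWGP.GapStmt` is proved (`Pool.Agent.MWGP.H5.gap`).  In the proofs: `x = 0`, `a = 1`, `b = 2` (a letter `b`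
only in NTK, NTC, NTS, NTQ), `|` is a separator (a letter which occurs once), `~` is `RR θ`; all
identities may be multiplied from both sides (`RR.append`) and letters may be substituted by words
(`RR.sub`); a separator `t` may be replaced by `u t v`, that is how words are inserted next to it, and
a letter may be deleted (`RR.filter`, or substitution by `[]`).
-/

namespace Pool.Agent.MWGR

open Pool.Agent.Helper14_MV Pool.Agent.Helper2_MV Pool.Agent.MVO Pool.Agent.MWL Pool.Agent.MWS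
  Pool.Agent.MWH

/-- `1^r` -/
abbrev Y (r : ℕ) : List ℕ := List.replicate r 1

/-- the alternating tail `|a|b|a..` with `k` letters and multiplicities `r` -/
def altm (k : ℕ) (r : ℕ → ℕ) : List ℕ :=
  (List.range k).flatMap (fun j => (3 + j) :: List.replicate (r j) (1 + j % 2))

/-! ### exponents -/

/-- **EXG** (uses nothing).  Exponents are taken modulo `n`.
PROOF.  It is enough to treat `e' = e + n m` (the larger one is the smaller one plus a multiple of `n`,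
`Nat.modEq_iff_dvd'`, symmetry), and by induction `m = 1`.  (1) `y ∈ p = p1 ++ y :: p2`, `e = e0 + 1`: `ga`
(`0 ↦ [y]`, `1 ↦ p2`): `y p2 y ~ y p2 y^(n+1)`; multiply with `p1` and with `y^(e0) ++ q`.  (This is
`MWGP.H5.gap1`.)  (2) `e = e0 + 2`: `per` (`y² ~ y^(n+2)`).  (3) `it` (definition `It`) with `p := p1`, `w := p2`,
`w' := y^e ++ q1`, `q := q2` inserts `y^n` in front of `y^e`; the letters of `w ++ w'` are multiple in the word
(`y` is, and the counts of the other letters are those of `p ++ q`).  (4) `e = e0 + 1`: `it` with `p := p`, the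
first letter `y`, `w := []`, `w' := y^(e0) ++ q1`. -/
def ExgStmt : Prop :=
  ∀ (n : ℕ) (θ : FIC), BG n (RR θ) → ∀ (p q : List ℕ) (y e e' : ℕ), e ≡ e' [MOD n] →
    (y ∈ p → 1 ≤ e → 1 ≤ e' →
      RR θ (p ++ (List.replicate e y ++ q)) (p ++ (List.replicate e' y ++ q))) ∧
    (2 ≤ e → 2 ≤ e' →
      RR θ (p ++ (List.replicate e y ++ q)) (p ++ (List.replicate e' y ++ q))) ∧
    (∀ p1 p2 q1 q2 : List ℕ, p = p1 ++ y :: p2 → q = q1 ++ y :: q2 →
      (∀ c, c ∈ p2 ∨ c ∈ q1 → 2 ≤ (p ++ q).count c) →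
        RR θ (p ++ (List.replicate e y ++ q)) (p ++ (List.replicate e' y ++ q))) ∧
    (∀ q1 q2 : List ℕ, q = q1 ++ y :: q2 → 1 ≤ e → 1 ≤ e' →
      (∀ c ∈ q1, c ≠ y → 2 ≤ (p ++ q).count c) →
        RR θ (p ++ (List.replicate e y ++ q)) (p ++ (List.replicate e' y ++ q)))

/-- **DCR** (uses EXG).  Crossing a light letter `c`.
PROOF.  `c ∈ q`: `q = q1 ++ c :: q2`.  `Dm n d`: `X(n+d) a X n | a ~ X n a X(n+d) | a`; multiply with `X s` from the left and
replace the separator `2` by `X t ++ q1` (deleting it), `0 ↦ x`, `1 ↦ c`, multiply with `q2` and `p`: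
`p x^(s+n+d) c x^(n+t) q ~ p x^(s+n) c x^(n+d+t) q`.  Now reduce the exponents: before `c`: EXG (4) (first power of `x`,
`1 ≤ s`, behind it `c` and then an `x`, as `1 ≤ t`; `c` occurs twice: here and in `q`): `s + n + d` to `s + d`, `s + n` to `s`;
behind `c`: EXG (1) (`x` is before). -/
def DcrStmt : Prop :=
  ∀ (n : ℕ) (θ : FIC), BG n (RR θ) → ∀ d : ℕ, Dm n d (RR θ) → ∀ (p q : List ℕ) (x c s t : ℕ),
    x ≠ c → 1 ≤ s → 1 ≤ t → c ∈ q →
      RR θ (p ++ (List.replicate (s + d) x ++ c :: (List.replicate t x ++ q)))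
        (p ++ (List.replicate s x ++ c :: (List.replicate (t + d) x ++ q)))

/-- **NTA** (uses EXG).  The multiplicity of a letter `y` behind a separator `t` is made `1`.
PROOF.  `m = (n - 1) * r + 1`, so `m + r = n r + 1`.  Substitute `t ↦ t :: y^m` (it occurs once on both sides):
`A y B t y^(m+r) C ~ A' y B' t y^(m+r') C'`; the left side is `~ A y B t y C` by EXG (1).  Delete all letters except
`y` and `t` (`RR.filter` with the predicate `c = y ∨ c = t`): `y t y^(m+r) ~ y t y^(m+r')`, so by EXG (1)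
`y t y ~ y t y^(m+r')`; substitute `t ↦ B' ++ [t]`, multiply with `A'` and `C'`: `A' y B' t y C' ~ A' y B' t y^(m+r') C'`. -/
def NtaStmt : Prop :=
  ∀ (n : ℕ) (θ : FIC), BG n (RR θ) → ∀ (A B C A' B' C' : List ℕ) (y t r r' : ℕ), 1 ≤ r → 1 ≤ r' →
    y ≠ t → (∀ D ∈ [A, B, C, A', B', C'], y ∉ D ∧ t ∉ D) →
      RR θ (A ++ y :: (B ++ t :: (List.replicate r y ++ C)))
        (A' ++ y :: (B' ++ t :: (List.replicate r' y ++ C'))) →
      RR θ (A ++ y :: (B ++ t :: y :: C)) (A' ++ y :: (B' ++ t :: y :: C'))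

/-! ### the states of a heavy letter `x` and a light letter `a` -/

/-- **NT0** (uses EXG, NTA).
PROOF.  NTA (`y = 1`, `t = 2`, `C = C' = []`): `L := X s a | a ~ M := X s' a X t' | a`.  Insert `X n` in front of the separator
(`2 ↦ X n ++ [2]`): `X s a X n | a ~ X s' a X(t'+n) | a ~ M` (EXG (1) if `1 ≤ s'`, EXG (2) if `s' = 0`, then `2 ≤ t'`).  So
`X s a | a ~ X s a X n | a`.  Multiply from the left with `X u`, `u = (n - 1) * s + 2`: the exponents become
`s + u = n s + 2`, EXG (2). -/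
def Nt0Stmt : Prop :=
  ∀ (n : ℕ) (θ : FIC), BG n (RR θ) → ∀ s s' t' r r' : ℕ, 2 ≤ s → 2 ≤ s' + t' → 1 ≤ t' → 1 ≤ r →
    1 ≤ r' → RR θ (X s ++ 1 :: 2 :: Y r) (X s' ++ 1 :: (X t' ++ 2 :: Y r')) → Al0 n (RR θ)

/-- **NT1** (uses EXG, NTA).
PROOF.  As NT0: NTA with `t = 3` (the letter `2` and the `X c` are in `B`).  Insert `X n` in front of `2`:
`X s a X n | X c | a ~ X s a | X c | a`.  Then `s` to `2` as in NT0, and `c` to `1`: insert `X m` in front of the separator `3`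
with `m = (n - 1) * c + 1`, EXG (1). -/
def Nt1Stmt : Prop :=
  ∀ (n : ℕ) (θ : FIC), BG n (RR θ) → ∀ s s' t' c c' r r' : ℕ, 2 ≤ s → 2 ≤ s' + t' → 1 ≤ t' →
    1 ≤ c → 1 ≤ r → 1 ≤ r' →
      RR θ (X s ++ 1 :: 2 :: (X c ++ 3 :: Y r))
        (X s' ++ 1 :: (X t' ++ 2 :: (X c' ++ 3 :: Y r'))) → Al1 n (RR θ)

/-- **NT2** (uses EXG, NTA).
PROOF.  As NT1: NTA with `t = 2`, `C = 3 :: X c`, `C' = 3 :: X c'`; at the end multiply with `X m` from the right. -/
def Nt2Stmt : Prop :=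
  ∀ (n : ℕ) (θ : FIC), BG n (RR θ) → ∀ s s' t' c c' r r' : ℕ, 2 ≤ s → 2 ≤ s' + t' → 1 ≤ t' →
    1 ≤ c → 1 ≤ r → 1 ≤ r' →
      RR θ (X s ++ 1 :: 2 :: (Y r ++ 3 :: X c))
        (X s' ++ 1 :: (X t' ++ 2 :: (Y r' ++ 3 :: X c'))) → Al2 n (RR θ)

/-- **NTZ** (uses EXG, NTA).
PROOF.  NTA (`t = 2`): `R := a X t | a ~ X s' a X t' | a =: M`.  Multiply with `X n` from the left:
`X n a X t | a ~ X(n+s') a X t' | a ~ M` (if `1 ≤ t'`: EXG (4) with `q1 = [1]`, `a` is multiple; if `t' = 0`: `2 ≤ s'`, EXG (2)).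
So `a X t | a ~ X n a X t | a`.  Insert `X m` in front of the separator, `m = (n - 1) * t + 2`: `t + m = n t + 2`, EXG (2). -/
def NtzStmt : Prop :=
  ∀ (n : ℕ) (θ : FIC), BG n (RR θ) → ∀ t s' t' r r' : ℕ, 2 ≤ t → 2 ≤ s' + t' → 1 ≤ s' → 1 ≤ r →
    1 ≤ r' → RR θ (1 :: (X t ++ 2 :: Y r)) (X s' ++ 1 :: (X t' ++ 2 :: Y r')) → Ze n (RR θ)

/-- **NTR** (uses EXG, NTA).
PROOF.  NTA (`t = 3`).  Insert `X n` behind the separator `2` (`2 ↦ 2 :: X n`): `x | X n a X t | a ~ x | X(n+s') a X t' | a`, the right side is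
`~ x | X s' a X t' | a` by EXG (1), so `x | a X t | a ~ x | X n a X t | a`.  Insert `X m`, `m = (n - 1) * t + 2`, in front of the
separator `3`, EXG (1). -/
def NtrStmt : Prop :=
  ∀ (n : ℕ) (θ : FIC), BG n (RR θ) → ∀ t s' t' r r' : ℕ, 1 ≤ t → 1 ≤ s' → 1 ≤ r → 1 ≤ r' →
    RR θ (0 :: 2 :: 1 :: (X t ++ 3 :: Y r)) (0 :: 2 :: (X s' ++ 1 :: (X t' ++ 3 :: Y r'))) →
      Rh n (RR θ)

/-- **NTP** (uses EXG, NTA).
PROOF.  As NTR (the letters `X h`, `X h'` in the first block stay); at the end `h` to `2`: multiply with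
`X u` from the left, `u = (n - 1) * h + 2`, EXG (2). -/
def NtpStmt : Prop :=
  ∀ (n : ℕ) (θ : FIC), BG n (RR θ) → ∀ h h' t s' t' r r' : ℕ, 2 ≤ h → 2 ≤ h' → 1 ≤ t → 1 ≤ s' →
    1 ≤ r → 1 ≤ r' →
      RR θ (X h ++ 2 :: 1 :: (X t ++ 3 :: Y r)) (X h' ++ 2 :: (X s' ++ 1 :: (X t' ++ 3 :: Y r'))) →
        Rh' n (RR θ)

/-- **NTK** (uses NTA).  PROOF.  NTA for `y = 1`, `t = 3` (`A = [0]`, `B = 2 :: X r`; `A' = []`, `B' = 0 :: 2 :: X r'`), then for
`y = 0`, `t = 2` (`A = []`, `B = [1]`, `C = [3, 1]`; `A' = [1]`, `B' = []`, `C' = [3, 1]`). -/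
def NtkStmt : Prop :=
  ∀ (n : ℕ) (θ : FIC), BG n (RR θ) → ∀ r r' q q' : ℕ, 1 ≤ r → 1 ≤ r' → 1 ≤ q → 1 ≤ q' →
    RR θ (0 :: 1 :: 2 :: (X r ++ 3 :: Y q)) (1 :: 0 :: 2 :: (X r' ++ 3 :: Y q')) → Ka (RR θ)

/-- **NTD** (uses EXG, NTA).  The labels differ by an element of the crossing group.
PROOF.  NTA: `X i a X j | a ~ X i' a X j' | a`.  Multiply with `X u` from the left, insert `X v` in front of the separator:
`X(i+u) a X(j+v) | a ~ X(i'+u) a X(j'+v) | a` for all `u`, `v`.  Delete `1`, `2`: `X(i+j) ~ X(i'+j')`.  If `i' ≤ v`: in the second word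
`X(j'+v) = X(i'+j') ++ X(v-i') ~ X(i+j) ++ X(v-i')`, so `X(i+u) a X(j+v) | a ~ X(i'+u) a X(i+j+v-i') | a`.  Take
`u = n + (n-1) i'`, `v = (n-1) j + n (i'+1)` (`≥ i'`): the exponents are `≡ n + D`, `≡ n`, `≡ n`, `≡ n + D` with
`D = i + (n-1) i'`, and all are `≥ 1`: EXG (4) before `a`, EXG (1) behind `a` (write `1 ≤ n`, `i + (n-1) i' + (i' ..)`; all
congruences mod `n` are clear after writing `n = m + 1`). -/
def NtdStmt : Prop :=
  ∀ (n : ℕ) (θ : FIC), BG n (RR θ) → ∀ i j i' j' m m' : ℕ, 1 ≤ m → 1 ≤ m' →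
    RR θ (X i ++ 1 :: (X j ++ 2 :: Y m)) (X i' ++ 1 :: (X j' ++ 2 :: Y m')) →
      Dm n (i + (n - 1) * i') (RR θ)

/-! ### the order of two light letters -/

/-- **NTC** (uses EXG, DCR, NTD).  The core: the tails are equal.
PROOF.  `u := X i a X j b X l T ~ u' := X i' b X j' a X l' T`, `T = 3 :: T0`.  (1) Delete `2` and all letters of `T0` except `1`
(the letter `3` stays, it is the separator; `1 ∈ T0`): `X i a X(j+l) | a^m ~ X(i'+j') a X l' | a^m` (`|` is `3`, rename it to `2`: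
substitution), `m ≥ 1`: NTD: `Dm n D1`, `D1 = i + (n-1)(i'+j')`.  Delete `1` and all letters of `T0` except `2`, rename `2` to `1`:
`Dm n D2`, `D2 = (i+j) + (n-1) i'`.  (2) Multiply with `X p` from the left and insert `X q` in front of `3`,
`p = n + (n-1) i`, `q = n (i'+j'+1) + (n-1) l`; the left side is `X(n + n i) a X j b X(l+q) T`, and by EXG (hull: (3) for
`X j`, also if `j = 0`; (4), (1)) it is `~ X n a X(n+j) b X n T`.  The right side is `X(i'+p) b X j' a X(l'+q) T`.  Delete everything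
except `0`: `X(i+j+l) ~ X(i'+j'+l')`; as `q ≥ i'+j'`: `X(l'+q) = X(i'+j'+l') ++ X(q-i'-j') ~ X(i+j+l+q-i'-j')`; so the right side is
`~ X(i'+p) b X j' a X e T` with `e = i+j+l+q-i'-j'`, all exponents may be increased by multiples of `n` (EXG), in
particular the middle one is positive.  (3) Cross `b` with `D2` letters and `a` with `D1` letters (DCR, `b, a ∈ T`): take
`D2` letters from the middle to the left: the left exponent becomes `i' + p + D2 ≡ j` (`≡ n + j`), then move `D1`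
letters from the right of `a` to the left of `a`: the sum of the left and the middle exponent becomes
`≡ i' + j' + p + D1 ≡ 0`.  So left `≡ n + j`, middle `≡ n + (n-1) j`, and the total is `≡ j` (the total of the left side is
`≡ j`, the two totals agree), so right `≡ n + j`.  EXG.  (Before moving letters away from a power increase its
exponent by a multiple of `n`.)  The result is `Ec n j T`. -/
def NtcStmt : Prop :=
  ∀ (n : ℕ) (θ : FIC), BG n (RR θ) → ∀ (T0 : List ℕ) (i j l i' j' l' : ℕ), 1 ∈ T0 → 2 ∈ T0 →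
    0 ∉ T0 → 3 ∉ T0 →
      RR θ (X i ++ 1 :: (X j ++ 2 :: (X l ++ 3 :: T0)))
        (X i' ++ 2 :: (X j' ++ 1 :: (X l' ++ 3 :: T0))) → Ec n j (3 :: T0) (RR θ)

/-- **NTS** (uses MWGP.GAP, NTA, NTC).  Common later block.
PROOF.  The letters behind `3` are non-first occurrences, so by GAP they commute: `L ~ 1^r 2^s` with
`r = L.count 1 ≥ 1`, `s = L.count 2 ≥ 1` (induction, or: a list with the letters `1, 2` is a permutation of
`1^r 2^s`, `List.Perm` induction with GAP (2) for the swap), the same for `L'`.  NTA for `y = 1`, `t = 3` (`C = 2^s`): then both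
sides end with `3 1 2^s`, `3 1 2^s'`; GAP: `3 2^s 1`; NTA for `y = 2`, `t = 3` (`C = [1]`): `3 2 1`; GAP: `3 1 2`.  NTC with `T0 = [1, 2]`. -/
def NtsStmt : Prop :=
  ∀ (n : ℕ) (θ : FIC), BG n (RR θ) → ∀ (L L' : List ℕ) (i j l i' j' l' : ℕ), 1 ∈ L → 2 ∈ L →
    1 ∈ L' → 2 ∈ L' → (∀ c ∈ L, c = 1 ∨ c = 2) → (∀ c ∈ L', c = 1 ∨ c = 2) →
      RR θ (X i ++ 1 :: (X j ++ 2 :: (X l ++ 3 :: L)))
        (X i' ++ 2 :: (X j' ++ 1 :: (X l' ++ 3 :: L'))) → Es n j (RR θ)

/-- **NTQ** (uses EXG, NTC).  Alternating tails.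
PROOF.  `m j := (n-1) * r j + 1`.  Substitute `3 + j ↦ (3+j) :: (1 + j % 2)^(m j)` for all `j < k`: the tails become
`altm k (fun j => m j + r j)` and `altm k r''`, `r'' j = m j + r' j`.  The first is `~ altm k (fun _ => 1)` by EXG (1) (the exponents are
`n * r j + 1`, all are non-first occurrences; change them one after the other), so
`(*) X i a X j b X l (altm k 1) ~ X i' b X j' a X l' (altm k r'')`.  Delete `0`, `2` in `(*)`: `1 :: Z 1 ~ 1 :: Z r''` with
`Z r = (List.range k).flatMap (fun j => (3+j) :: if j % 2 = 0 then 1^(r j) else [])`; substitute `3 ↦ X l' ++ [3]` and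
`3 + j ↦ (3+j) :: 2^(r'' j)` for odd `j < k`, multiply with `X i' ++ 2 :: X j'`: the right side of `(*)` is `~` to the same word
with `r'' j` replaced by `1` for even `j`.  Then in the same way for the letter `2`: delete `0`, `1` in `(*)`:
`2 :: Z' 1 ~ 2 :: Z' r''`; substitute `3 ↦ X j' ++ 1 :: (X l' ++ [3, 1])` and `3 + j ↦ [3+j, 1]` for even `j`, `2 ≤ j < k`, multiply with `X i'`.
The right side becomes `X i' b X j' a X l' (altm k 1)`, and `altm k 1 = alt k`.  NTC (`alt k = 3 :: T0`, `1 ∈ T0`; `2 ∈ T0`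
because `2 ≤ k`; `0, 3 ∉ T0`). -/
def NtqStmt : Prop :=
  ∀ (n : ℕ) (θ : FIC), BG n (RR θ) → ∀ (k : ℕ) (r r' : ℕ → ℕ) (i j l i' j' l' : ℕ), 2 ≤ k →
    (∀ t < k, 1 ≤ r t ∧ 1 ≤ r' t) →
      RR θ (X i ++ 1 :: (X j ++ 2 :: (X l ++ altm k r)))
        (X i' ++ 2 :: (X j' ++ 1 :: (X l' ++ altm k r'))) → Ec n j (alt k) (RR θ)

end Pool.Agent.MWGR
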