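import Pool.Agent.MWGR.StmtsC
import Pool.Agent.MWHP.StmtsN

/-!
# Block MWGR, part E: the edges of two words of the same types (rows)

Every row: file `Pool/Agent/HelperNN_MWGR/XXX.lean`, import `Pool.Agent.MWGR.StmtsE` (rows NF*: import
`Pool.Agent.MWGR.StmtsN`), namespace `Pool.Agent.MWGR.HNN`, theorem
`xxx (hypotheses = rows in uses, in this order) : XxxStmt`.  `pre B i`, `suf B i r` and `asm_split`, `mem_pre`,
`mem_suf`, `suf_split`, `pre_split` are in `Pool/Agent/MVO/Split.lean`; `OkB`, `ty`, `NC2`, `JPp` in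
`MWS/Defs.lean`; `EqT`, `Eq2` in `MWHP/Defs.lean`; `Gm` in `MWGP/Stmts.lean`; `BMap`, `pshB` in `MVO/Defs.lean`.
-/

namespace Pool.Agent.MWGR

open Pool.Agent.Helper14_MV Pool.Agent.Helper2_MV Pool.Agent.MVO Pool.Agent.MWL Pool.Agent.MWS
  Pool.Agent.MWH

/-- families of the same types, entries behind the first one are `0` or at least `2` -/
structure Fam (n k : ℕ) (B B' : ℕ → List ℕ) : Prop where
  ok : OkB k B
  ok' : OkB k B'
  eq : MWHP.EqT n k B B'
  gm : ∀ c, NS k c → MWGP.Gm k (ty B c)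

/-- behind block `i` all blocks with `x` stand before all blocks with `a` -/
def Rg (k : ℕ) (B : ℕ → List ℕ) (i x a : ℕ) : Prop :=
  ∀ j j', i < j → j ≤ k → i < j' → j' ≤ k → a ∈ B j → x ∈ B j' → j' < j

/-- the gap of `x` between `a` and `b` -/
def gap (n : ℕ) (l : List ℕ) (a b : ℕ) : ℕ → ℕ := fun x => 2 * n + (n - 1) * cb l x a + cb l x b

/-- the state of `(x, a)` on the right side may be changed as in block `i` -/
def MRe (n : ℕ) (θ : FIC) (k : ℕ) (B B' : ℕ → List ℕ) (i x a : ℕ) : Prop :=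
  ¬ (cb (B i) x a = (B i).count x ↔ cb (B' i) x a = (B' i).count x) →
    ∀ H pr : List ℕ, a ∉ H → REo n θ H pr (suf B i (k - i)) x a

/-- the state of `(x, a)` on the left side may be changed as in block `i` -/
def MLe (n : ℕ) (θ : FIC) (k : ℕ) (B B' : ℕ → List ℕ) (i x a : ℕ) : Prop :=
  ¬ (cb (B i) x a = 0 ↔ cb (B' i) x a = 0) → ∀ H pr : List ℕ, a ∉ H →
    (x ∈ pre B i → x ∈ pr) → (2 ≤ (pre B i).count x → 2 ≤ pr.count x) →
      LEo n θ H pr (suf B i (k - i)) x a

/-- the label of `(x, a)` may be changed as in block `i` -/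
def MCr (n : ℕ) (θ : FIC) (k : ℕ) (B B' : ℕ → List ℕ) (i x a : ℕ) : Prop :=
  ∀ H pr : List ℕ, a ∉ H → CRo n θ H pr (suf B i (k - i)) x a (cb (B i) x a) (cb (B' i) x a)

/-- `a` and `b` may be exchanged as in block `i` -/
def MSw (n : ℕ) (θ : FIC) (k : ℕ) (B : ℕ → List ℕ) (i a b : ℕ) : Prop :=
  ∀ H pr : List ℕ, a ∉ H → b ∉ H → (∀ x ∈ H, 2 ≤ (B i).count x) →
    SWo n θ H pr (suf B i (k - i)) a b (gap n (B i) a b)

/-- `M` is described by edges which are necessary for `asm k B ~ asm k B'` -/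
def Tsk (n : ℕ) (β : FIC) (k : ℕ) (B B' : ℕ → List ℕ) (M : FIC → Prop) : Prop :=
  ∃ L : List Ed, (∀ e ∈ L, Good n β e) ∧ ∀ θ : FIC, β ≤ θ → NC2 θ →
    (RR θ (asm k B) (asm k B') → ∀ e ∈ L, EdIn n (RR θ) e) ∧
      ((∀ e ∈ L, EdIn n (RR θ) e) → M θ)

/-! ### contexts -/

/-- **SQL** (uses nothing).  Letters in increasing blocks behind block `i`.
PROOF.  Induction on `r`.  `r + 1`: let `m := j r`.  `suf B i (m - i) = suf B i (m - 1 - i) ++ (m + 1) :: B m` (definition, `i < m`) and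
`suf B i (k - i) = suf B i (m - i) ++ ..` (induction on `k - m`).  The induction hypothesis for `k := m - 1` (`r = 0`: empty
list; else `j (r-1) < m`) and `[c r] <+ B m`; `List.range_succ`, `List.map_append`, `List.Sublist.append`. -/
def SqlStmt : Prop :=
  ∀ (k i r : ℕ) (B : ℕ → List ℕ) (j c : ℕ → ℕ), i ≤ k →
    (∀ t < r, i < j t ∧ j t ≤ k ∧ c t ∈ B (j t)) → (∀ t, t + 1 < r → j t < j (t + 1)) →
      ((List.range r).map c).Sublist (suf B i (k - i))

/-- **CMB** (uses nothing).  A common block behind block `i`.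
PROOF.  `suf B i (k - i) = R ++ B j ++ R'` (`suf_split`).  `a` and `b` are in `B j`: `B j = P ++ a :: (w ++ b :: Q)` or
`P ++ b :: (w ++ a :: Q)`.  Let `z ∈ w`; then `z ∈ B j`, `NS k z` (`ok`).  If `2 ≤ (B j).count z` we are done.  Otherwise
`(B j).count z = 1`; by `Gm` all entries of `z` before `j` are `0`; the total is `≥ 2` (`OkB.ml`), so `z` occurs in a block
`j' > j`, `j' ≤ k`: the count in `suf` is at least `2` (`suf B i (k-i)` contains the blocks `j` and `j'`; use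
`suf_split` for `j` and then for `j'`: `suf B i (k-i) = suf B i (j-i) ++ suf B j (k-j)`). -/
def CmbStmt : Prop :=
  ∀ (k : ℕ) (B : ℕ → List ℕ), OkB k B → (∀ c, NS k c → MWGP.Gm k (ty B c)) →
    ∀ i j a b, i < j → j ≤ k → a ≠ b → a ∈ B j → b ∈ B j →
      Cl (suf B i (k - i)) a b ∨ Cl (suf B i (k - i)) b a

/-- **FRL** (uses CSP, MV2, MV3, SQL, CMB).  Labels and the left state are free if `(x, a)` is not rigid.
PROOF.  There are `j ≤ j'` with `a ∈ B j`, `x ∈ B j'` behind `i`.  `j = j'`: CMB, CSP (2): `CrS`, hence `CrW`.  `j < j'`: SQL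
(`r = 2`): `[a, x] <+ suf`; CSP (3): `CrW`.  MV3, MV2. -/
def FrlStmt : Prop :=
  ∀ (n : ℕ) (η : FIC), BG n (RR η) → Kaba (RR η) → ∀ (k : ℕ) (B : ℕ → List ℕ), OkB k B →
    (∀ c, NS k c → MWGP.Gm k (ty B c)) → ∀ i x a, i ≤ k → x ≠ a → ¬ Rg k B i x a →
      ∀ H pr : List ℕ, a ∉ H → (∀ s s', CRo n η H pr (suf B i (k - i)) x a s s') ∧
        LEo n η H pr (suf B i (k - i)) x a

/-- **FRR** (uses CSP, MV1, SQL, CMB).  The right state is free if neither `(x, a)` nor `(a, x)` is rigid.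
PROOF.  There are `j1 ≤ j1'` with `a ∈ B j1`, `x ∈ B j1'` and `j2 ≤ j2'` with `x ∈ B j2`, `a ∈ B j2'`.  If `j1 = j1'` or `j2 = j2'` or
`j1' = j2'`: a common block: CMB, CSP (2).  `j1' < j2'`: `[a, x, a] <+ suf` (SQL, `j1 < j1' < j2'`); `j2' < j1'`: `[x, a, x] <+ suf`
(`j2 < j2' < j1'`): CSP (1).  MV1. -/
def FrrStmt : Prop :=
  ∀ (n : ℕ) (η : FIC), BG n (RR η) → Kaba (RR η) → ∀ (k : ℕ) (B : ℕ → List ℕ), OkB k B →
    (∀ c, NS k c → MWGP.Gm k (ty B c)) → ∀ i x a, i ≤ k → x ≠ a → ¬ Rg k B i x a →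
      ¬ Rg k B i a x → ∀ H pr : List ℕ, a ∉ H → REo n η H pr (suf B i (k - i)) x a

/-- **ALT** (uses nothing).  Two letters without a common block behind `i`: the alternating pattern.
`u` is the letter of the first block with `a` or `b` behind `i`, `v` the other one.
PROOF.  Let `u` be such a letter and define `f j = 0` for `j ≤ i` and `f (j+1) = f j + 1` if `f j` is even and `u ∈ B (j+1)`, or `f j` is
odd and `v ∈ B (j+1)`; otherwise `f (j+1) = f j`; `r := f k`.  All properties by induction on `j`: `f` is monotone with steps `≤ 1`, so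
every value `t` in `1..r` is taken for the first time at a block with `u` (`t` odd) or `v` (`t` even); a block `j > i` with `u`
has `f j` odd, a block with `v` has `f j` even and positive (before the first `u` there is no `v`).  `2 ≤ r` as both
letters occur.  `f j = 0` for the blocks before the first `u`. -/
def AltStmt : Prop :=
  ∀ (k i a b : ℕ) (B : ℕ → List ℕ), i ≤ k → (∃ j, i < j ∧ j ≤ k ∧ a ∈ B j) →
    (∃ j, i < j ∧ j ≤ k ∧ b ∈ B j) → (∀ j, i < j → j ≤ k → ¬ (a ∈ B j ∧ b ∈ B j)) →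
      ∃ (u v r : ℕ) (f : ℕ → ℕ), ((u = a ∧ v = b) ∨ (u = b ∧ v = a)) ∧ 2 ≤ r ∧ r ≤ k ∧
        BMap k r f ∧ (∀ j ≤ i, f j = 0) ∧
        (∀ j, i < j → j ≤ k → u ∈ B j → f j % 2 = 1) ∧
        (∀ j, i < j → j ≤ k → v ∈ B j → f j % 2 = 0 ∧ 1 ≤ f j) ∧
        (∀ t, 1 ≤ t → t ≤ r → ∃ j, i < j ∧ j ≤ k ∧ f j = t ∧
          (t % 2 = 1 → u ∈ B j) ∧ (t % 2 = 0 → v ∈ B j)) ∧
        (∀ j ≤ k, (∀ j', i < j' → j' ≤ j → u ∉ B j') → f j = 0)

/-! ### arithmetic -/

/-- **DMA** (uses nothing).  The numbers `d` with `Dm n d`.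
PROOF.  `D := {d | Dm n d (RR η)}`.  (a) `d ∈ D`, `d ≡ d' [MOD n]` gives `d' ∈ D`: multiply with `x^n` on the left and put `2 ↦ x^n 2`
(`RR.sub`), then the exponents of `x` before and behind `1` are changed mod `n` by `it` (between two `x` of the same power,
`w = w' = []`) and the additional `x^n` are removed by `it`.  (b) `0 ∈ D` (both sides are equal).  (c) `d, d' ∈ D` gives
`d + d' ∈ D`: `x^d' · (Dm n d)`, with `2 ↦ x^d 2` in `Dm n d'`: `x^(n+d+d') 1 x^n ~ x^(n+d') 1 x^(n+d) ~ x^n 1 x^(n+d+d')`.  So `D` is closed under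
addition and contains all multiples of `n`; hence `D` = multiples of some `g ∣ n` (`g` the smallest positive
element; division with remainder, `d - q g ≡ d + (n-1) q g`).  That is the first statement.  Second statement: let `g ∣ n`,
`g ∣ d * (n / p^(v_p n))` for all primes `p ∣ n`; then `g ∣ d`: for every prime `p` the exponent of `p` in `g` is at most the one
in `d` (if `p ∤ n` it is `0`; if `p ∣ n` then `p` does not divide `n / p^(v_p n)`): `Nat.factorization_le_iff_dvd`, or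
`(Nat.Coprime.dvd_of_dvd_mul_right)` for the `p`-parts; `d = 0` is trivial. -/
def DmaStmt : Prop :=
  ∀ (n : ℕ) (η : FIC), BG n (RR η) →
    (∃ g, g ∣ n ∧ ∀ d, Dm n d (RR η) ↔ g ∣ d) ∧
    ∀ d, (∀ p ∈ n.primeFactors, Dm n (d * (n / p ^ n.factorization p)) (RR η)) → Dm n d (RR η)

/-- **ECD** (uses DMA).  The numbers `c` with `Ec n c T`, `T = 3 :: T'` without `0` and `3`, with `1` and `2`.
PROOF.  All words are multiplied with `x^n` on the left and `3 ↦ x^n 3` (`RR.sub`), so that there is an `x` before and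
behind every light letter; then all exponents can be changed mod `n` (also to `0` between the light letters)
by `it`: the letters `1`, `2` are multiple (they occur in `T'`).  At the end the additional `x^n` are removed in the same
way.  (1) exponents mod `n`.  (2) `0 ↦ x^e` (`RR.sub`) in `Ec n c T`, exponents mod `n`.  (3) `Dm n d` for the letter `2`:
`1 ↦ 2`, `2 ↦` the part of `T` before its first `2` (multiplied with the rest): the label of `2` is changed by `d` in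
`x^n 1 x^(n+c) 2 x^n T` and in `x^(n+c) 2 x^(n+(n-1)c) 1 x^(n+c) T`. -/
def EcdStmt : Prop :=
  ∀ (n : ℕ) (η : FIC), BG n (RR η) → ∀ T' : List ℕ, 0 ∉ T' → 3 ∉ T' → 1 ∈ T' → 2 ∈ T' →
    (∀ c c', c ≡ c' [MOD n] → Ec n c (3 :: T') (RR η) → Ec n c' (3 :: T') (RR η)) ∧
    (∀ c e, Ec n c (3 :: T') (RR η) → Ec n (c * e) (3 :: T') (RR η)) ∧
    (∀ c d, Dm n d (RR η) → Ec n c (3 :: T') (RR η) → Ec n (c + d) (3 :: T') (RR η))

/-- **GCM** (uses nothing).  A greatest common divisor as a sum of multiples mod `n`.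
PROOF.  Induction on `R`: `g0 = n`: `m = 0`, the empty sum is `0 ≡ n`.  `x :: R`: `g1` for `R` with `m1`; `Nat.gcd (G x) g1` is
`s G x + t g1` with integers `s`, `t` (`Nat.gcd_eq_gcd_ab`), reduced mod `n` to natural numbers; `m x := s`, `m y := t * m1 y`
(`R` has no repetitions). -/
def GcmStmt : Prop :=
  ∀ (n : ℕ), 1 ≤ n → ∀ (R : List ℕ), R.Nodup → ∀ G : ℕ → ℕ,
    ∃ g0 : ℕ, g0 ∣ n ∧ 1 ≤ g0 ∧ (∀ x ∈ R, g0 ∣ G x) ∧
      ∃ m : ℕ → ℕ, (R.map (fun x => m x * G x)).sum ≡ g0 [MOD n]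

/-- **FES** (uses nothing).  `FE n 1` gives `Es n 1`.
PROOF.  `p = []`, `q = [3]`, `w = []`, `r = []`, `x = 0`, `a = 1`, `b = 2`. -/
def FesStmt : Prop := ∀ (n : ℕ) (η : FIC), FE n 1 (RR η) → Es n 1 (RR η)

/-! ### the tasks -/

/-- **TRE** (uses NFR, REL, FRR, SQL).  The right state.
PROOF.  `k ≥ i`; `NS k x`, `NS k a` by `ok`.  If the two states agree: `L = []`, nothing to show.  Otherwise: (1) `Rg k B i x a` and `x` does not occur
behind `i`: `L = [al0]`, NFR (1), REL (1).  (2) `Rg k B i x a` and `x ∈ B j` for some `j > i`: `L = [al1]`, NFR (2), REL (2) with SQL: `a`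
occurs behind `i` (the total of `a` is `≥ 2`, the entries before `i` are `0` by `Gm`, the entry at `i` is `1`), in a block
`j' > j` by `Rg`.  (3) not `Rg k B i x a`, `Rg k B i a x`: `L = [al2]`, NFR (3), REL (3), SQL (`x` occurs behind `i`, otherwise
`Rg k B i x a`; in a block behind all `a`).  (4) neither: `L = []`, FRR (`Reg` gives `BG`, `Kaba` for `β`, hence for `θ ≥ β`). -/
def TreStmt : Prop :=
  ∀ (n : ℕ) (β : FIC), Reg n (RR β) → ∀ (k : ℕ) (B B' : ℕ → List ℕ), Fam n k B B' →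
    ∀ i x a, i ≤ k → x ≠ a → 2 ≤ (B i).count x → (B i).count a = 1 →
      Tsk n β k B B' (fun θ => MRe n θ k B B' i x a)

/-- **TLE** (uses NFL, LEL, FRL).  The left state.
PROOF.  If the two states agree: `L = []`.  Not `Rg k B i x a`: `L = []`, FRL.  `Rg k B i x a`: `c := (pre B i).count x`:
`c = 0`: `L = [ze]`, `c = 1`: `L = [rh]`, `2 ≤ c`: `L = [rh']`: NFL and LEL. -/
def TleStmt : Prop :=
  ∀ (n : ℕ) (β : FIC), Reg n (RR β) → ∀ (k : ℕ) (B B' : ℕ → List ℕ), Fam n k B B' →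
    ∀ i x a, i ≤ k → x ≠ a → 2 ≤ (B i).count x → (B i).count a = 1 →
      Tsk n β k B B' (fun θ => MLe n θ k B B' i x a)

/-- **TCR** (uses NFD, DMA, CRM, CRD, FRL).  The label.
PROOF.  Not `Rg k B i x a`: `L = []`, FRL.  `Rg k B i x a`: let `s = cb (B i) x a`, `s' = cb (B' i) x a`, `d = s + (n-1) s'`;
`L = n.primeFactors.toList.map (fun p => Ed.dm (d * (n / p ^ n.factorization p)))`.  `Good`: `n ∣ m * p^e` with
`e = n.factorization p` (`Nat.ordProj_dvd`).  NFD: `Dm n d`, so `Dm n (d * t)` for all `t` (DMA, first part, for `θ`).  Conversely DMA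
(second part): `Dm n d`; `s ≡ s' + d [MOD n]`: CRD. -/
def TcrStmt : Prop :=
  ∀ (n : ℕ) (β : FIC), Reg n (RR β) → ∀ (k : ℕ) (B B' : ℕ → List ℕ), Fam n k B B' →
    ∀ i x a, i ≤ k → x ≠ a → 2 ≤ (B i).count x → (B i).count a = 1 →
      Tsk n β k B B' (fun θ => MCr n θ k B B' i x a)

/-- **RLS** (uses nothing).  The list of the letters which are rigid for `a` and `b`.
PROOF.  `R := ((B i).dedup).filter ..` (decidable by classical logic). -/
def RlsStmt : Prop :=
  ∀ (k i a b : ℕ) (B : ℕ → List ℕ), ∃ R : List ℕ, R.Nodup ∧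
    ∀ x, x ∈ R ↔ (2 ≤ (B i).count x ∧ Rg k B i x a ∧ Rg k B i x b)

/-- **TS1** (uses NFS, CMB, GCM, RLS, FES, SWF, SWS, VEC, VER, MSW, FRL, ECD).  Exchange with a common block.
PROOF.  CMB: `Cl a b` or `Cl b a`.  Case `FE n 1` in `β`: `L = []`: for `θ ≥ β`: SWF and VEC (resp. VER if `Cl b a`): `SWx a b 1`; MSW with
`c = 1` (`g x ≡ g x * 1`).  Case not `FE n 1` in `β`: by `Reg.fe`: `F1`, and `Al0` or `Rh` in `β`.  RLS: `R`; GCM for `G = gap n (B i) a b`:
`g0`, `m`.  `L = [Ed.es g0]` (`Good`: `F1`, `g0 ∣ n`).  Necessity: NFS gives `Es n (sum)`, ECD (1): `Es n g0`.  Sufficiency: SWS: `EXo a b g0`; VEC: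
`SWx a b g0`; MSW: `x ∈ H`: `2 ≤ (B i).count x`; if `x ∈ R`: `g0 ∣ gap x`; otherwise `(x, a)` or `(x, b)` is not rigid: FRL (`x ≠ a, b`). -/
def Ts1Stmt : Prop :=
  ∀ (n : ℕ) (β : FIC), Reg n (RR β) → ∀ (k : ℕ) (B B' : ℕ → List ℕ), Fam n k B B' →
    ∀ i a b, i ≤ k → a ≠ b → (B i).count a = 1 → (B i).count b = 1 → cb (B i) a b = 1 →
      cb (B' i) a b = 0 → (∃ j, i < j ∧ j ≤ k ∧ a ∈ B j ∧ b ∈ B j) →
        Tsk n β k B B' (fun θ => MSw n θ k B i a b)

/-- **TS2** (uses NFK, KAD, SQL, SW0, MSW, CRD, DMA).  Exchange with the pattern `a..b` or `b..a`.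
PROOF.  `L = [ka]`, NFK.  Conversely: SQL: `[a, b] <+ suf` or `[b, a] <+ suf`; KAD: `ADo a b` and `Dm n 1`; SW0: `SWx a b n`; DMA: `Dm n d` for
all `d` (the `g` divides `1`); CRD: `CRo x a s s'` for all `s`, `s'` (`d = s + (n-1) s'`); MSW.  (`a` and `b` occur behind `i`: the total
is `≥ 2`.) -/
def Ts2Stmt : Prop :=
  ∀ (n : ℕ) (β : FIC), Reg n (RR β) → ∀ (k : ℕ) (B B' : ℕ → List ℕ), Fam n k B B' →
    ∀ i a b, i ≤ k → a ≠ b → (B i).count a = 1 → (B i).count b = 1 → cb (B i) a b = 1 →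
      cb (B' i) a b = 0 → (Rg k B i a b ∨ Rg k B i b a) →
        Tsk n β k B B' (fun θ => MSw n θ k B i a b)

/-- **TS3** (uses NFS, NFE, NFD, ALT, GCM, RLS, FES, SWE, SWP, VEC, VER, MSW, FRL, ECD, DMA, SQL).  Exchange with an alternating
pattern of length at least `3`.
PROOF.  ALT: `u, v, r, f`.  `3 ≤ r` (if `r = 2` all blocks with `u` stand before all blocks with `v`: `Rg`).  SQL with the blocks `j_t` of
ALT (`f` is monotone, so they increase): `altl u v r <+ suf`, in particular `[u, v, u] <+ suf`.  RLS: `R`; GCM: `g0`, `m`.  Case `F1` in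
`β`: if `FE n 1` in `β`: `L = []`: FES, SWP (`c = 1`), VEC, MSW.  Otherwise `L = [Ed.es g0]`: NFS, ECD; conversely SWP, VEC, MSW, FRL.
Case not `F1`: `L = [Ed.ep r g0]`.  Necessity: if `u = a`: NFE for `(a, b)`, ECD (1).  If `u = b`: NFE for `(b, a)` and the families `B'`, `B`
(symmetry; `Fam n k B' B`): `Ec n c' (alt r)` with `c' = sum of m x * gap n (B' i) b a x`; by NFD `Dm n (cb (B i) x a + (n-1) cb (B' i) x a)` and
the same for `b`, so `c' + sum (m x * gap n (B i) a b x)` is a multiple of the generator of `D` (DMA): ECD (3), (2) (`e = n - 1`), (1):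
`Ec n g0`.  Sufficiency: SWE for `altl u v r`: `EXo u v g0`; VEC if `u = a`, VER if `u = b`; MSW, FRL. -/
def Ts3Stmt : Prop :=
  ∀ (n : ℕ) (β : FIC), Reg n (RR β) → ∀ (k : ℕ) (B B' : ℕ → List ℕ), Fam n k B B' →
    ∀ i a b, i ≤ k → a ≠ b → (B i).count a = 1 → (B i).count b = 1 → cb (B i) a b = 1 →
      cb (B' i) a b = 0 → (∀ j, i < j → j ≤ k → ¬ (a ∈ B j ∧ b ∈ B j)) → ¬ Rg k B i a b →
        ¬ Rg k B i b a → Tsk n β k B B' (fun θ => MSw n θ k B i a b)

/-! ### assembly -/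

/-- **DTT** (uses BBL).  Block by block.
PROOF.  `C t := fun j => if j < t then B' j else B j`.  Show `asm k B ~ asm k (C t)` for `t ≤ k + 1` by induction; `asm k (C (k+1)) = asm k B'`
(`asm_congr`).  Step at `i = t ≤ k`: `asm k (C t) = pr ++ (B i ++ s)`, `asm k (C (t+1)) = pr ++ (B' i ++ s)` with `pr = pre B' i`, `s = suf B i (k-i)`
(`asm_split`, `pre_congr`, `suf_congr`).  BBL for `θ`, `θ` with `H := (B i).dedup.filter (2 ≤ (B i).count ·)`.  `Ok1` for `B i`: a letter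
`a ∉ H` of `B i` has count `1`; `a ∉ pr`: the separators are not letters of `B i` (`ok`), and if `a ∈ B' j`, `j < i`, then
`a ∈ B j` (`EqT`: equal or both `≥ 2`) and `Gm` gives `2 ≤ (B i).count a`; `a ∈ s`: the total is `≥ 2` (`OkB.ml`), so `a` occurs in a block
behind `i`.  `Ok1` for `B' i`: the same letters have count `≥ 2`, the others equal counts.  Counts mod `n`: `EqT`.  The four
conditions of BBL are the hypotheses (`x ∈ H`, `a ∉ H`, so `x ≠ a`; `(B i).count a = 1`): for `MLe`: `x ∈ pre B i` gives `x ∈ pre B' i` and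
`2 ≤ count` is preserved (`EqT`: entries are equal or both `≥ 2`; `x` is not a separator); `MSw` for `cb (B i) a b = 1`. -/
def DttStmt : Prop :=
  ∀ (n k : ℕ) (θ : FIC) (B B' : ℕ → List ℕ), BG n (RR θ) → Fam n k B B' →
    (∀ i ≤ k, ∀ x a, x ≠ a → 2 ≤ (B i).count x → (B i).count a = 1 →
      MRe n θ k B B' i x a ∧ MLe n θ k B B' i x a ∧ MCr n θ k B B' i x a) →
    (∀ i ≤ k, ∀ a b, a ≠ b → (B i).count a = 1 → (B i).count b = 1 → cb (B i) a b = 1 →
      cb (B' i) a b = 0 → MSw n θ k B i a b) →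
      RR θ (asm k B) (asm k B')

/-- **TSF** (uses nothing).  Finitely many tasks.
PROOF.  Induction on `Q`: append the lists. -/
def TsfStmt : Prop :=
  ∀ (n : ℕ) (β : FIC) (k : ℕ) (B B' : ℕ → List ℕ) (Q : List (ℕ × ℕ × ℕ))
    (M : ℕ × ℕ × ℕ → FIC → Prop), (∀ q ∈ Q, Tsk n β k B B' (M q)) →
      Tsk n β k B B' (fun θ => ∀ q ∈ Q, M q θ)

/-- **EWR** (uses TRE, TLE, TCR, TS1, TS2, TS3, TSF, DTT, JPE).  The edges.
PROOF.  `Fam n k B B'`.  Let `Q` be the list of all triples `(i, x, a)` with `i ≤ k` and `x`, `a` letters of `B i` (a `flatMap`).  TSF three times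
(for `MRe ∧ MLe ∧ MCr` use TSF for each of the three, `M q := ` the statement under the hypotheses `x ≠ a`, `2 ≤ count`, `count = 1`; if the
hypotheses fail the task is trivial, `L = []`) and once for `MSw`: for `a ≠ b` light, `cb (B i) a b = 1`, `cb (B' i) a b = 0`: TS1 if there is a common
block behind `i`, TS2 if `Rg k B i a b` or `Rg k B i b a`, else TS3.  The union `L` of the lists; the pairs `(e.l n, e.r n)`, `e ∈ L`, are
join prime by JPE.  `RR θ B B'` gives all edges; conversely all edges give all moves, and DTT (`BG n (RR θ)` from `BG n (RR β)` and `β ≤ θ`). -/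
def EwrStmt : Prop := ∀ (n : ℕ) (β : FIC), Reg n (RR β) → EdgeW n β

/-- **SUR** (uses PRIN, EWR).  The region is distributive. -/
def SurStmt : Prop := ∀ (n : ℕ) (β : FIC), Reg n (RR β) → DistF β

end Pool.Agent.MWGR
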