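import Pool.Agent.MWGP.Stmts

/-!
# The gamma world for period `n`, region without mixing (definitions)

Block MWGR of the full answer to MP_23468a_al: varieties with `xyx ≈ xyx^(n+1)` in which the
exponents of the two parts of a letter around a light letter matter.  `S u v` stands for an
identity `u ≈ v`; in the literal identities `0` is a heavy letter `x`, `1` and `2` are light letters `a`, `b`
or separators.
-/

namespace Pool.Agent.MWGR

open Pool.Agent.Helper14_MV Pool.Agent.Helper2_MV Pool.Agent.MVO Pool.Agent.MWL Pool.Agent.MWS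
  Pool.Agent.MWH

/-- `x^k` -/
abbrev X (k : ℕ) : List ℕ := List.replicate k 0

/-- `x^n` can be inserted between two occurrences of `x` -/
def It (n : ℕ) (S : List ℕ → List ℕ → Prop) : Prop := ∀ (p w w' q : List ℕ) (x : ℕ),
  MVO.Sys.Mul (w ++ w') (p ++ x :: (w ++ (w' ++ x :: q))) →
    S (p ++ x :: (w ++ (w' ++ x :: q))) (p ++ x :: (w ++ (List.replicate n x ++ (w' ++ x :: q))))

/-- the base -/
structure BG (n : ℕ) (S : List ℕ → List ℕ → Prop) : Prop where
  pos : 1 ≤ n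
  per : MWZ.Per n S
  ga : MWZ.Ga n S
  rn : MWGP.Rn n S
  f : MVO.Sys.F S
  it : It n S

/-! ### literal identities -/

/-- `ab|a|b|a ≈ ba|a|b|a` -/
def Kaba (S : List ℕ → List ℕ → Prop) : Prop := S [0, 1, 2, 0, 3, 1, 4, 0] [1, 0, 2, 0, 3, 1, 4, 0]

/-- `x²|·|x² ≈ x²|x^n|x²` -/
def F1 (n : ℕ) (S : List ℕ → List ℕ → Prop) : Prop :=
  S [0, 0, 2, 3, 0, 0] ([0, 0, 2] ++ (X n ++ [3, 0, 0]))

/-- `x^(n+m) a x^n |a ≈ x^n a x^(n+m) |a` -/
def Dm (n m : ℕ) (S : List ℕ → List ℕ → Prop) : Prop :=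
  S (X (n + m) ++ 1 :: (X n ++ [2, 1])) (X n ++ 1 :: (X (n + m) ++ [2, 1]))

/-- exchange of the light letters `a`, `b` over `x^(n+c)`, the word ends with `T` -/
def Ec (n c : ℕ) (T : List ℕ) (S : List ℕ → List ℕ → Prop) : Prop :=
  S (X n ++ 1 :: (X (n + c) ++ 2 :: (X n ++ T)))
    (X (n + c) ++ 2 :: (X (n + (n - 1) * c) ++ 1 :: (X (n + c) ++ T)))

/-- the tail `|ab` -/
def Es (n c : ℕ) (S : List ℕ → List ℕ → Prop) : Prop := Ec n c [3, 1, 2] S

/-- the tail `|a|b|a` -/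
def Ea (n c : ℕ) (S : List ℕ → List ℕ → Prop) : Prop := Ec n c [3, 1, 4, 2, 5, 1] S

/-- `x²a|a ≈ x²ax^n|a` -/
def Al0 (n : ℕ) (S : List ℕ → List ℕ → Prop) : Prop :=
  S [0, 0, 1, 2, 1] ([0, 0, 1] ++ (X n ++ [2, 1]))

/-- `x²a|x|a ≈ x²ax^n|x|a` -/
def Al1 (n : ℕ) (S : List ℕ → List ℕ → Prop) : Prop :=
  S [0, 0, 1, 2, 0, 3, 1] ([0, 0, 1] ++ (X n ++ [2, 0, 3, 1]))

/-- `x²a|a|x ≈ x²ax^n|a|x` -/
def Al2 (n : ℕ) (S : List ℕ → List ℕ → Prop) : Prop :=
  S [0, 0, 1, 2, 1, 3, 0] ([0, 0, 1] ++ (X n ++ [2, 1, 3, 0]))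

/-- `ax²|a ≈ x^nax²|a` -/
def Ze (n : ℕ) (S : List ℕ → List ℕ → Prop) : Prop :=
  S [1, 0, 0, 2, 1] (X n ++ [1, 0, 0, 2, 1])

/-- `x|ax²|a ≈ x|x^nax²|a` -/
def Rh (n : ℕ) (S : List ℕ → List ℕ → Prop) : Prop :=
  S [0, 2, 1, 0, 0, 3, 1] ([0, 2] ++ (X n ++ [1, 0, 0, 3, 1]))

/-- `x²|ax²|a ≈ x²|x^nax²|a` -/
def Rh' (n : ℕ) (S : List ℕ → List ℕ → Prop) : Prop :=
  S [0, 0, 2, 1, 0, 0, 3, 1] ([0, 0, 2] ++ (X n ++ [1, 0, 0, 3, 1]))

/-- `ab|a|b ≈ ba|a|b` -/
def Ka (S : List ℕ → List ℕ → Prop) : Prop := S [0, 1, 2, 0, 3, 1] [1, 0, 2, 0, 3, 1]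

/-- the system of the region without mixing -/
structure RG2 (n : ℕ) (S : List ℕ → List ℕ → Prop) : Prop extends BG n S where
  k : Kaba S
  fe : F1 n S ∨ Es n 1 S
  hall : ∀ q r, q * r = n → Nat.Coprime q r → Dm n r S ∨ Ea n q S

/-! ### one block -/

/-- a block `l` between `pre` and `suf`: the letters of `H` are heavy, the other letters are light
(the first occurrence, once in the block, and an occurrence in `suf`) -/
structure Ok1 (H pre suf l : List ℕ) : Prop where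
  nd : H.Nodup
  hv : ∀ x ∈ H, 2 ≤ l.count x
  lt : ∀ a ∈ l, a ∉ H → l.count a = 1 ∧ a ∉ pre ∧ a ∈ suf

/-- the word with the block `l` -/
def Wd (pre suf l : List ℕ) : List ℕ := pre ++ (l ++ suf)

/-- the number of letters `x` before the first `a` -/
def cb (l : List ℕ) (x a : ℕ) : ℕ := (l.takeWhile (fun c => decide (c ≠ a))).count x

/-- a product of powers of the letters of `S` -/
def GG (S : List ℕ) (g : ℕ → ℕ) : List ℕ := S.flatMap (fun x => List.replicate (g x) x)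

/-! Tokens are numbers: `3 a` is the light letter `a`, `3 x + 1` opens and `3 x + 2` closes the heavy letter `x`. -/

/-- the open letters after a list of tokens -/
def opn (O : ℕ → Bool) : List ℕ → (ℕ → Bool)
  | [] => O
  | t :: T => opn (if t % 3 = 0 then O else Function.update O (t / 3) (decide (t % 3 = 1))) T

/-- the light letter `a` decorated with its labels -/
def outL (n : ℕ) (H : List ℕ) (Λ : ℕ → ℕ → ℕ) (O : ℕ → Bool) (a : ℕ) : List ℕ :=
  GG (H.filter O) (fun x => n + Λ x a) ++ a :: GG (H.filter O) (fun x => n + (n - 1) * Λ x a)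

/-- the realisation of a token list -/
def real (n : ℕ) (H : List ℕ) (Λ : ℕ → ℕ → ℕ) (N : ℕ → ℕ) : (ℕ → Bool) → List ℕ → List ℕ
  | _, [] => []
  | O, t :: T =>
    (if t % 3 = 0 then outL n H Λ O (t / 3)
      else if t % 3 = 1 then List.replicate (2 * n) (t / 3)
      else List.replicate (n + N (t / 3)) (t / 3)) ++
      real n H Λ N (if t % 3 = 0 then O else Function.update O (t / 3) (decide (t % 3 = 1))) T

/-- `s` stands before `t` -/
def Pre (T : List ℕ) (s t : ℕ) : Prop := ∃ T1 T2 T3 : List ℕ, T = T1 ++ s :: (T2 ++ t :: T3)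

/-- admissible token lists -/
structure Tk (H pre suf T : List ℕ) : Prop where
  nd : T.Nodup
  hv : ∀ x ∈ H, Pre T (3 * x + 1) (3 * x + 2)
  lt : ∀ t ∈ T, (t % 3 = 0 ∧ t / 3 ∉ H ∧ t / 3 ∉ pre ∧ t / 3 ∈ suf) ∨ (t % 3 ≠ 0 ∧ t / 3 ∈ H)

/-- no letter is open -/
def O0 : ℕ → Bool := fun _ => false

/-! ### moves in a block -/

/-- `x` may be inserted behind `a` if it stands before `a` -/
def REo (n : ℕ) (η : FIC) (H pre suf : List ℕ) (x a : ℕ) : Prop :=
  ∀ A D : List ℕ, Ok1 H pre suf (A ++ x :: x :: a :: D) →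
    RR η (Wd pre suf (A ++ x :: x :: a :: D))
      (Wd pre suf (A ++ x :: x :: a :: (List.replicate n x ++ D)))

/-- `x` may be inserted before `a` if it stands behind `a` -/
def LEo (n : ℕ) (η : FIC) (H pre suf : List ℕ) (x a : ℕ) : Prop :=
  ∀ A D : List ℕ, Ok1 H pre suf (A ++ a :: x :: x :: D) →
    RR η (Wd pre suf (A ++ a :: x :: x :: D))
      (Wd pre suf (A ++ (List.replicate n x ++ a :: x :: x :: D)))

/-- the label `s` of `(x, a)` may be changed to `s'` -/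
def CRo (n : ℕ) (η : FIC) (H pre suf : List ℕ) (x a s s' : ℕ) : Prop :=
  ∀ A D : List ℕ, Ok1 H pre suf (A ++ (List.replicate (n + s) x ++
      a :: (List.replicate (n + (n - 1) * s) x ++ D))) →
    RR η (Wd pre suf (A ++ (List.replicate (n + s) x ++
      a :: (List.replicate (n + (n - 1) * s) x ++ D))))
      (Wd pre suf (A ++ (List.replicate (n + s') x ++
        a :: (List.replicate (n + (n - 1) * s') x ++ D))))

/-- the light letters `a`, `b` may be exchanged over a product of powers `x^(g x)` -/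
def SWo (n : ℕ) (η : FIC) (H pre suf : List ℕ) (a b : ℕ) (g : ℕ → ℕ) : Prop :=
  ∀ S A D : List ℕ, S.Nodup → (∀ x ∈ S, x ∈ H ∧ x ∈ A ∧ x ∈ D) →
    Ok1 H pre suf (A ++ a :: (GG S g ++ b :: D)) →
      RR η (Wd pre suf (A ++ a :: (GG S g ++ b :: D)))
        (Wd pre suf (A ++ (GG S g ++ b :: (GG S (fun x => (n - 1) * g x) ++ a :: (GG S g ++ D)))))

end Pool.Agent.MWGR
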