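import Pool.Agent.MWGR.Defs
import Pool.Agent.MWHP.StmtsN

/-!
# Block MWGR, part B: saturation and the reduction to words of the same types

The base `BasG n β`: `x² ≈ x^(n+2)`, `x² t x ≈ x² t x^(n+1)`, `x^n` can be inserted between two
occurrences of `x` with multiple letters in between; the number of occurrences is preserved up to
`2`.  All rows are proved in `Pool/Agent/Helper48_MWGR/`.
-/

namespace Pool.Agent.MWGR

open Pool.Agent.Helper14_MV Pool.Agent.Helper2_MV Pool.Agent.MVO Pool.Agent.MWL Pool.Agent.MWS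
open Pool.Agent.MWA Pool.Agent.MWH Pool.Agent.MWHP

/-- the base of the reductions -/
structure BasG (n : ℕ) (β : FIC) : Prop where
  pos : 1 ≤ n
  ap : RR β [0, 0] (List.replicate (n + 2) 0)
  rr : RR β [0, 0, 2, 0] ([0, 0, 2] ++ List.replicate (n + 1) 0)
  it : It n (RR β)
  cap : CapP β

/-- **LRG**: the one letter part. -/
def LrgStmt : Prop := ∀ (n : ℕ) (β θ : FIC), BasG n β → β ≤ θ → LR n (FC.ofFIC θ)

/-- **RPG**: an occurrence of a heavy letter may be replaced by `n m + 1` occurrences. -/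
def RpgStmt : Prop :=
  ∀ (n : ℕ) (β : FIC), It n (RR β) → ∀ (k : ℕ) (B : ℕ → List ℕ), OkB k B → ∀ i ≤ k,
    ∀ (x : ℕ) (P Q : List ℕ) (m : ℕ), B i = P ++ x :: Q → 2 ≤ (B i).count x →
      RR β (asm k B) (asm k (Function.update B i (P ++ (List.replicate (n * m + 1) x ++ Q))))

/-- **DBG**: the same in all blocks at once. -/
def DbgStmt : Prop :=
  ∀ (n : ℕ) (β : FIC), It n (RR β) → ∀ (k : ℕ) (B B1 : ℕ → List ℕ), OkB k B →
    (∀ j ≤ k, B1 j = B j ∨ ∃ (x : ℕ) (P Q : List ℕ) (m : ℕ), 2 ≤ (B j).count x ∧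
      B j = P ++ x :: Q ∧ B1 j = P ++ (List.replicate (n * m + 1) x ++ Q)) →
      OkB k B1 ∧ RR β (asm k B) (asm k B1)

/-- **SAG**: insertion of an absorbing letter. -/
def SagStmt : Prop :=
  ∀ (n : ℕ) (β θ : FIC), BasG n β → β ≤ θ → ∀ (k : ℕ) (B : ℕ → List ℕ), OkB k B → ∀ i ≤ k,
    ∀ x : ℕ, NS k x → 2 ≤ deg k (ty B x) → Ab n (FC.ofFIC θ) k (ty B x) i →
      ∀ P Q : List ℕ, B i = P ++ Q → (x ∉ B i ∨ ∃ P', P = P' ++ [x]) →
        RR θ (asm k B) (asm k (Function.update B i (P ++ (List.replicate (2 * n) x ++ Q))))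

/-- **STG**: saturation. -/
def StgStmt : Prop :=
  ∀ (n : ℕ) (β θ : FIC), BasG n β → β ≤ θ → ∀ (k : ℕ) (B : ℕ → List ℕ), OkB k B →
    ∃ B1 : ℕ → List ℕ, OkB k B1 ∧ MWS.Sub k B B1 ∧ RR θ (asm k B) (asm k B1) ∧
      (∀ j ≤ k, ∀ c, (B j).count c ≤ (B1 j).count c) ∧
      ∀ x, (∃ j ≤ k, x ∈ B j) → ∀ i ≤ k, Ab n (FC.ofFIC θ) k (ty B x) i → 2 ≤ (B1 i).count x

/-- **AGG**: align the residues of one letter. -/
def AggStmt : Prop :=
  ∀ (n : ℕ) (β θ : FIC), BasG n β → β ≤ θ → ∀ (k : ℕ) (C : ℕ → List ℕ), OkB k C → ∀ (x : ℕ)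
    (a' : ℕ → ℕ), NS k x → Sh k (ty C x) a' → L1 θ k (ty C x) a' →
      ∃ C2 : ℕ → List ℕ, OkB k C2 ∧ MWS.Sub k C C2 ∧ RR θ (asm k C) (asm k C2) ∧
        (∀ j ≤ k, ∀ c, c ≠ x → (C2 j).count c = (C j).count c) ∧ Eq2 n k (ty C2 x) a'

/-- **AAG**: align all letters. -/
def AagStmt : Prop :=
  ∀ (n : ℕ) (β θ : FIC), BasG n β → β ≤ θ → ∀ (k : ℕ) (C C' : ℕ → List ℕ), OkB k C → OkB k C' →
    (∀ x, NS k x → Sh k (ty C x) (ty C' x)) → (∀ x, NS k x → L1 θ k (ty C x) (ty C' x)) →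
      ∃ C2 : ℕ → List ℕ, OkB k C2 ∧ MWS.Sub k C C2 ∧ EqT n k C2 C' ∧ RR θ (asm k C) (asm k C2)

/-- **SHG**: two words with related types have saturations of the same types. -/
def ShgStmt : Prop :=
  ∀ (n : ℕ) (β θ : FIC), BasG n β → β ≤ θ → NC2 θ → ∀ (k : ℕ) (B B' : ℕ → List ℕ), OkB k B →
    OkB k B' → (∀ x, NS k x → L1 θ k (ty B x) (ty B' x)) →
      ∃ C C' : ℕ → List ℕ, OkB k C ∧ OkB k C' ∧ MWS.Sub k B C ∧ MWS.Sub k B' C' ∧ EqT n k C C' ∧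
        RR θ (asm k B) (asm k C) ∧ RR θ (asm k B') (asm k C')

/-- **JPG**: join primality from invariant sets; all words of the chain have letters of `B0`. -/
def JpigStmt : Prop :=
  ∀ β : FIC, CapP β → ∀ (k : ℕ) (B0 B1 : ℕ → List ℕ) (A : (ℕ → List ℕ) → Prop),
    OkB k B0 → OkB k B1 → A B0 → ¬ A B1 →
      (∀ B B', (∀ j ≤ k, B j = B' j) → A B → A B') →
      (∀ θ : FIC, β ≤ θ → NC2 θ → ¬ RR θ (asm k B0) (asm k B1) → ∀ B B' : ℕ → List ℕ, OkB k B →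
        OkB k B' → MWS.Sub k B0 B → MWS.Sub k B0 B' → RR θ (asm k B) (asm k B') → A B → A B') →
        JPp β (asm k B0, asm k B1)

/-- the distributive law for words of the same types -/
def MJSG (n : ℕ) (β : FIC) : Prop :=
  ∀ ρ σ τ : FIC, β ≤ ρ → β ≤ σ → β ≤ τ → NC2 ρ → NC2 σ → NC2 τ → ∀ (k : ℕ) (B B' : ℕ → List ℕ),
    OkB k B → OkB k B' → EqT n k B B' →
      RR (FIC.sup ρ σ) (asm k B) (asm k B') → RR τ (asm k B) (asm k B') →
        RR (psi ρ σ τ) (asm k B) (asm k B')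

/-- the modular law for words of the same types -/
def MJSM (n : ℕ) (β : FIC) : Prop :=
  ∀ ρ σ τ : FIC, β ≤ ρ → β ≤ σ → β ≤ τ → ρ ≤ τ → NC2 ρ → NC2 σ → NC2 τ →
    ∀ (k : ℕ) (B B' : ℕ → List ℕ), OkB k B → OkB k B' → EqT n k B B' →
      RR (FIC.sup ρ σ) (asm k B) (asm k B') → RR τ (asm k B) (asm k B') →
        RR (psi ρ σ τ) (asm k B) (asm k B')

/-- words of the same types are described by join prime pairs -/
def EdgeG (n : ℕ) (β : FIC) : Prop :=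
  ∀ (k : ℕ) (B B' : ℕ → List ℕ), OkB k B → OkB k B' → EqT n k B B' →
    ∃ L : List (List ℕ × List ℕ), (∀ e ∈ L, JPp β e) ∧
      ∀ θ : FIC, β ≤ θ → NC2 θ → (RR θ (asm k B) (asm k B') ↔ ∀ e ∈ L, RR θ e.1 e.2)

/-- **EDD**: edges give the distributive law for words of the same types. -/
def EddStmt : Prop := ∀ (n : ℕ) (β : FIC), CapP β → EdgeG n β → MJSG n β

/-- **DDG**: the reduction, distributive law. -/
def DdgStmt : Prop := ∀ (n : ℕ) (β : FIC), BasG n β → MJSG n β → DistF β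

/-- **MMG**: the reduction, modular law. -/
def MmgStmt : Prop := ∀ (n : ℕ) (β : FIC), BasG n β → MJSM n β → ModF β

/-- **BGB**: the base. -/
def BgbStmt : Prop := ∀ (n : ℕ) (β : FIC), BG n (RR β) → BasG n β ∧ Cm2 β

/-- words of the same types with entries `0` or `≥ 2` behind the first one are described by join
prime pairs -/
def EdgeW (n : ℕ) (β : FIC) : Prop :=
  ∀ (k : ℕ) (B B' : ℕ → List ℕ), OkB k B → OkB k B' → EqT n k B B' →
    (∀ c, NS k c → MWGP.Gm k (ty B c)) → (∀ c, NS k c → MWGP.Gm k (ty B' c)) →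
      ∃ L : List (List ℕ × List ℕ), (∀ e ∈ L, JPp β e) ∧
        ∀ θ : FIC, β ≤ θ → NC2 θ → (RR θ (asm k B) (asm k B') ↔ ∀ e ∈ L, RR θ e.1 e.2)

/-- **NGM**: normalisation. -/
def NgmStmt : Prop :=
  ∀ (n : ℕ) (β : FIC), BG n (RR β) → ∀ (k : ℕ) (B B' : ℕ → List ℕ), OkB k B → OkB k B' →
    EqT n k B B' → ∃ C C' : ℕ → List ℕ, OkB k C ∧ OkB k C' ∧ EqT n k C C' ∧
      (∀ c, NS k c → MWGP.Gm k (ty C c)) ∧ (∀ c, NS k c → MWGP.Gm k (ty C' c)) ∧
      RR β (asm k B) (asm k C) ∧ RR β (asm k B') (asm k C')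

/-- **PRIN**: the principle. -/
def PrinStmt : Prop := ∀ (n : ℕ) (β : FIC), BG n (RR β) → EdgeW n β → DistF β

end Pool.Agent.MWGR
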