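import Pool.Agent.MWGR.StmtsA
import Pool.Agent.MWGR.StmtsB

/-!
# Block MWGR: the region, the edges, the moves (definitions)
-/

namespace Pool.Agent.MWGR

open Pool.Agent.Helper14_MV Pool.Agent.Helper2_MV Pool.Agent.MVO Pool.Agent.MWL Pool.Agent.MWS
  Pool.Agent.MWH

/-- the tail `|a|b|a..` with `k` letters -/
def alt (k : ℕ) : List ℕ := (List.range k).flatMap (fun j => [3 + j, 1 + j % 2])

/-- the word `a b a ..` with `k` letters -/
def altl (a b k : ℕ) : List ℕ := (List.range k).map (fun j => if j % 2 = 0 then a else b)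

/-- `F` with a gap: the first occurrences of `a`, `b` are exchanged over `x^(n+c)` if `a w b` occurs
later and the letters of `w` are multiple -/
def FE (n c : ℕ) (S : List ℕ → List ℕ → Prop) : Prop :=
  ∀ (p q w r : List ℕ) (x a b : ℕ), x ≠ a → x ≠ b → a ≠ b →
    MVO.Sys.Mul w (p ++ (List.replicate n x ++ a :: (List.replicate (n + c) x ++
      b :: (List.replicate n x ++ (q ++ a :: (w ++ b :: r)))))) →
    S (p ++ (List.replicate n x ++ a :: (List.replicate (n + c) x ++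
        b :: (List.replicate n x ++ (q ++ a :: (w ++ b :: r))))))
      (p ++ (List.replicate (n + c) x ++ b :: (List.replicate (n + (n - 1) * c) x ++
        a :: (List.replicate (n + c) x ++ (q ++ a :: (w ++ b :: r))))))

/-- the region without mixing -/
structure Reg (n : ℕ) (S : List ℕ → List ℕ → Prop) : Prop extends BG n S where
  k : Kaba S
  fe : FE n 1 S ∨ (F1 n S ∧ (Al0 n S ∨ Rh n S))
  hall : ∀ q r, q * r = n → Nat.Coprime q r → Dm n r S ∨ Ea n q S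

/-! ### the edges -/

/-- the names of the edges -/
inductive Ed where
  | al0 : Ed
  | al1 : Ed
  | al2 : Ed
  | ze : Ed
  | rh : Ed
  | rh' : Ed
  | ka : Ed
  | dm : ℕ → Ed
  | es : ℕ → Ed
  | ep : ℕ → ℕ → Ed

/-- left side -/
def Ed.l (n : ℕ) : Ed → List ℕ
  | Ed.al0 => [0, 0, 1, 2, 1]
  | Ed.al1 => [0, 0, 1, 2, 0, 3, 1]
  | Ed.al2 => [0, 0, 1, 2, 1, 3, 0]
  | Ed.ze => [1, 0, 0, 2, 1]
  | Ed.rh => [0, 2, 1, 0, 0, 3, 1]
  | Ed.rh' => [0, 0, 2, 1, 0, 0, 3, 1]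
  | Ed.ka => [0, 1, 2, 0, 3, 1]
  | Ed.dm m => X (n + m) ++ 1 :: (X n ++ [2, 1])
  | Ed.es c => X n ++ 1 :: (X (n + c) ++ 2 :: (X n ++ [3, 1, 2]))
  | Ed.ep k c => X n ++ 1 :: (X (n + c) ++ 2 :: (X n ++ alt k))

/-- right side -/
def Ed.r (n : ℕ) : Ed → List ℕ
  | Ed.al0 => [0, 0, 1] ++ (X n ++ [2, 1])
  | Ed.al1 => [0, 0, 1] ++ (X n ++ [2, 0, 3, 1])
  | Ed.al2 => [0, 0, 1] ++ (X n ++ [2, 1, 3, 0])
  | Ed.ze => X n ++ [1, 0, 0, 2, 1]
  | Ed.rh => [0, 2] ++ (X n ++ [1, 0, 0, 3, 1])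
  | Ed.rh' => [0, 0, 2] ++ (X n ++ [1, 0, 0, 3, 1])
  | Ed.ka => [1, 0, 2, 0, 3, 1]
  | Ed.dm m => X n ++ 1 :: (X (n + m) ++ [2, 1])
  | Ed.es c => X (n + c) ++ 2 :: (X (n + (n - 1) * c) ++ 1 :: (X (n + c) ++ [3, 1, 2]))
  | Ed.ep k c => X (n + c) ++ 2 :: (X (n + (n - 1) * c) ++ 1 :: (X (n + c) ++ alt k))

/-- `S` has the edge -/
def EdIn (n : ℕ) (S : List ℕ → List ℕ → Prop) (e : Ed) : Prop := S (e.l n) (e.r n)

/-- the edges which are used over `β` -/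
def Good (n : ℕ) (β : FIC) : Ed → Prop
  | Ed.dm m => ∃ p e, p.Prime ∧ n ∣ m * p ^ e
  | Ed.es c => F1 n (RR β) ∧ c ∣ n
  | Ed.ep k c => 3 ≤ k ∧ ¬ F1 n (RR β) ∧ c ∣ n
  | _ => True

/-- **JPE** (helper48): the edges are join prime. -/
def JpeStmt : Prop :=
  ∀ (n : ℕ) (β : FIC), Reg n (RR β) → ∀ e : Ed, Good n β e → JPp β (e.l n, e.r n)

/-! ### contexts and moves -/

/-- `a w b` is a factor of `suf`, the letters of `w` occur twice in `suf` -/
def Cl (suf : List ℕ) (a b : ℕ) : Prop :=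
  ∃ q w r : List ℕ, suf = q ++ a :: (w ++ b :: r) ∧ ∀ z ∈ w, 2 ≤ suf.count z

/-- `x` and `a` may be exchanged -/
def CrS (η : FIC) (H pre suf : List ℕ) (x a : ℕ) : Prop :=
  ∀ A D : List ℕ, Ok1 H pre suf (A ++ x :: a :: D) →
    RR η (Wd pre suf (A ++ x :: a :: D)) (Wd pre suf (A ++ a :: x :: D))

/-- `x` and `a` may be exchanged if there is an `x` behind them in the block -/
def CrW (η : FIC) (H pre suf : List ℕ) (x a : ℕ) : Prop :=
  ∀ A D : List ℕ, x ∈ D → Ok1 H pre suf (A ++ x :: a :: D) →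
    RR η (Wd pre suf (A ++ x :: a :: D)) (Wd pre suf (A ++ a :: x :: D))

/-- `W^m` -/
def rp (m : ℕ) (W : List ℕ) : List ℕ := (List.replicate m W).flatten

/-- `a` and `b` may be exchanged over `W^(n+c)`, `W` a product of heavy letters -/
def EXo (n : ℕ) (η : FIC) (H pre suf : List ℕ) (a b c : ℕ) : Prop :=
  ∀ A D W : List ℕ, (∀ z ∈ W, z ∈ H) →
    Ok1 H pre suf (A ++ (rp n W ++ a :: (rp (n + c) W ++ b :: (rp n W ++ D)))) →
      RR η (Wd pre suf (A ++ (rp n W ++ a :: (rp (n + c) W ++ b :: (rp n W ++ D)))))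
        (Wd pre suf (A ++ (rp (n + c) W ++ b :: (rp (n + (n - 1) * c) W ++
          a :: (rp (n + c) W ++ D)))))

/-- the light letters `a`, `b` may be exchanged over a product of powers `x^(h x)` if all `h x` are
multiples of `c` mod `n` -/
def SWx (n : ℕ) (η : FIC) (H pre suf : List ℕ) (a b c : ℕ) : Prop :=
  ∀ (S : List ℕ) (h : ℕ → ℕ), S.Nodup → (∀ x ∈ S, ∃ e, h x ≡ e * c [MOD n]) →
    ∀ A D : List ℕ, (∀ x ∈ S, x ∈ H ∧ x ∈ A ∧ x ∈ D) →
      Ok1 H pre suf (A ++ a :: (GG S h ++ b :: D)) →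
        RR η (Wd pre suf (A ++ a :: (GG S h ++ b :: D)))
          (Wd pre suf (A ++ (GG S h ++ b :: (GG S (fun x => (n - 1) * h x) ++
            a :: (GG S h ++ D)))))

/-- `a` and `b` may be exchanged if they are neighbours -/
def ADo (η : FIC) (H pre suf : List ℕ) (a b : ℕ) : Prop :=
  ∀ A D : List ℕ, Ok1 H pre suf (A ++ a :: b :: D) →
    RR η (Wd pre suf (A ++ a :: b :: D)) (Wd pre suf (A ++ b :: a :: D))

end Pool.Agent.MWGR
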