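import Pool.Agent.MWGR.DefsC

/-!
# Block MWGR, part C: the moves (rows)

Every row: file `Pool/Agent/HelperNN_MWGR/XXX.lean`, import `Pool.Agent.MWGR.StmtsC`, namespace
`Pool.Agent.MWGR.HNN`, theorem `xxx (hypotheses = rows in uses, in this order) : XxxStmt`.
`RR η u v` is the congruence on lists (`RR.refl, symm, append, sub` in `Helper2_MV/Keep.lean`;
transitivity is `η.trans`).  `MWGP.GapStmt` is proved (`Pool.Agent.MWGP.H5.gap`): non-first
occurrences may be multiplied (`x` to `x^(n+1)`) and commute.  Facts about `Ok1 H pre suf l`: it only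
depends on the numbers of occurrences of the letters in `l` (for heavy letters only: at least two);
`2 ≤ l.count x` gives `x ∈ H`; for `a ∉ H`, `a ∈ l`: `a ∈ suf`, `a ∉ pre`.  Decomposition of sublists:
`List.cons_sublist_iff`.  A literal identity is used by `RR.sub` (`0`, `1` for letters, `2`, `3`, `4` for words)
and `RR.append` on both sides.
-/

namespace Pool.Agent.MWGR

open Pool.Agent.Helper14_MV Pool.Agent.Helper2_MV Pool.Agent.MVO Pool.Agent.MWL Pool.Agent.MWS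
  Pool.Agent.MWH

/-! ### crossing of a heavy letter `x` and a light letter `a` -/

/-- **KCR** (uses nothing).  Crossing if `x..a..x` or `a..x..a` occurs behind.
PROOF.  `r = r0 ++ x :: (r1 ++ a :: (r2 ++ x :: r3))`: `Kaba` with `0 ↦ [x]`, `1 ↦ [a]`, `2 ↦ r0`, `3 ↦ r1`, `4 ↦ r2`, multiplied
with `p` and `r3`.  `r = r0 ++ a :: (r1 ++ x :: (r2 ++ a :: r3))`: `Kaba` with `0 ↦ [a]`, `1 ↦ [x]` and symmetry. -/
def KcrStmt : Prop :=
  ∀ η : FIC, Kaba (RR η) → ∀ (p r : List ℕ) (x a : ℕ),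
    [x, a, x].Sublist r ∨ [a, x, a].Sublist r → RR η (p ++ x :: a :: r) (p ++ a :: x :: r)

/-- **CSP** (uses KCR).  Crossing in all contexts where the labels do not matter.
PROOF.  The word is `(pre ++ A) ++ x :: a :: (D ++ suf)`.  (1) KCR (the sublist of `suf` is a sublist of `D ++ suf`).
(2) `Cl suf x a`: `suf = q ++ x :: (w ++ a :: r)`: `f` of `BG` (letters `x`, `y := a`) with `p := pre ++ A`, `q := D ++ q`; the letters of
`w` occur twice in `suf`, so twice in the word.  `Cl suf a x`: `f` with `x := a`, `y := x` and symmetry (the numbers of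
occurrences in the two words are the same).  (3) `x ∈ D` and `[a, x] <+ suf`: `[x, a, x] <+ D ++ suf`: KCR. -/
def CspStmt : Prop :=
  ∀ (n : ℕ) (η : FIC), BG n (RR η) → ∀ (H pre suf : List ℕ) (x a : ℕ),
    (Kaba (RR η) → [x, a, x].Sublist suf ∨ [a, x, a].Sublist suf → CrS η H pre suf x a) ∧
    (Cl suf x a ∨ Cl suf a x → CrS η H pre suf x a) ∧
    (Kaba (RR η) → [a, x].Sublist suf → CrW η H pre suf x a)

/-- **MV1** (uses nothing).  Crossing gives `REo`.
PROOF.  `A x x a D ~ A x a x D` (`CrS` for `A ++ [x]`, `D`) `~ A x a x^n x D` (`it` with `p := pre ++ A`, `w = [a]`, `w' = []`,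
`q := D ++ suf`: `a` is multiple: once in the block and in `suf`) `= A x a x x^n D ~ A x x a x^n D` (`CrS` for `D := x^n ++ D`).
`Ok1` for all words: only the number of `x` changes and stays `≥ 2`. -/
def Mv1Stmt : Prop :=
  ∀ (n : ℕ) (η : FIC), BG n (RR η) → ∀ (H pre suf : List ℕ) (x a : ℕ), a ∉ H →
    CrS η H pre suf x a → REo n η H pre suf x a

/-- **MV2** (uses nothing).  Crossing gives `LEo`.
PROOF.  `A a x x D ~ A x a x D` (`CrW` with `D := x :: D`, backwards) `~ A x x^n a x D` (`it` with `w = []`, `w' = [a]`)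
`= A x^n x a x D ~ A x^n a x x D` (`CrW` for `A ++ x^n`). -/
def Mv2Stmt : Prop :=
  ∀ (n : ℕ) (η : FIC), BG n (RR η) → ∀ (H pre suf : List ℕ) (x a : ℕ), a ∉ H →
    CrW η H pre suf x a → LEo n η H pre suf x a

/-- **CRM** (uses EXL).  `CRo` for congruent labels; symmetry, transitivity.
PROOF.  First: the exponents `n+s`, `n+s'` and `n+(n-1)s`, `n+(n-1)s'` are congruent mod `n` and positive.  Change the
exponent before `a`: the block is `A ++ x^(n+s) ++ D'` with `x ∈ D' = a :: (x^(n+(n-1)s) ++ D)`; write `x^(n+s) = x :: x^(n+s-1)` and use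
EXL for `A ++ [x]`, `e = n+s-1`, `e' = n+s'-1`; behind `a` in the same way with the last `x` of the power kept
(`x^(m) = x^(m-1) ++ [x]`, `A` contains `x`).  `x ∈ H` as `x` occurs twice.  Symmetry and transitivity: `Ok1` of the middle
word (both exponents are positive, so `x` occurs twice). -/
def CrmStmt : Prop :=
  ∀ (n : ℕ) (η : FIC), BG n (RR η) → ∀ (H pre suf : List ℕ) (x a : ℕ),
    (∀ s s', s ≡ s' [MOD n] → CRo n η H pre suf x a s s') ∧
    (∀ s s', CRo n η H pre suf x a s s' → CRo n η H pre suf x a s' s) ∧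
    (∀ s s' s'', CRo n η H pre suf x a s s' → CRo n η H pre suf x a s' s'' →
      CRo n η H pre suf x a s s'')

/-- **MV3** (uses CRM).  Crossing gives `CRo` for all labels.
PROOF.  It is enough to have `CRo s (s+1)` for all `s` (CRM, induction from `0`).  `A x^(n+s) a x^(n+(n-1)s) D`: insert `x^n`
behind `a` in front of `x^(n+(n-1)s)` (`it`: `x` before `a`, `w = [a]`, `w' = []`): `A x^(n+s) a x^(2n+(n-1)s) D`; move one `x` from the
right of `a` to the left (`CrW` backwards, there are `2n + (n-1)s - 1 ≥ 1` letters `x` behind): `A x^(n+s+1) a x^(2n-1+(n-1)s) D`, and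
`2n - 1 + (n-1)s = n + (n-1)(s+1)`.  This is the word for `s+1`. -/
def Mv3Stmt : Prop :=
  ∀ (n : ℕ) (η : FIC), BG n (RR η) → ∀ (H pre suf : List ℕ) (x a : ℕ), a ∉ H →
    CrW η H pre suf x a → ∀ s s', CRo n η H pre suf x a s s'

/-- **CRD** (uses CRM, EXL).  `Dm n d` changes a label by `d`.
PROOF.  `a ∉ H` and `a` in the block, so `a ∈ suf`: `suf = s1 ++ a :: s2`.  `Dm n d` with `0 ↦ [x]`, `1 ↦ [a]`,
`2 ↦ x^t ++ (D ++ s1)`, multiplied with `pre ++ (A ++ x^s')` on the left and `s2` on the right: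
`A x^(s'+n+d) a x^(n+t) D ~ A x^(s'+n) a x^(n+d+t) D`; take `t = (n-1) s`: then `s' + n + d ≡ n + s`, `n + t = n + (n-1)s`, and
`n + d + (n-1) s ≡ n + (n-1) s'` (as `d + (n-1)s + s' ≡ s + (n-1) s ≡ 0`).  The exponents are changed mod `n` as in CRM. -/
def CrdStmt : Prop :=
  ∀ (n : ℕ) (η : FIC), BG n (RR η) → ∀ d : ℕ, Dm n d (RR η) → ∀ (H pre suf : List ℕ) (x a : ℕ),
    a ∉ H → ∀ s s', s ≡ s' + d [MOD n] → CRo n η H pre suf x a s s'

/-- **REL** (uses nothing).  `REo` from the literal identities.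
PROOF.  `a ∈ suf` (`Ok1`, `a ∉ H`).  (1) `suf = s1 ++ a :: s2`: `Al0` with `0 ↦ [x]`, `1 ↦ [a]`, `2 ↦ D ++ s1`.  (2)
`suf = s1 ++ x :: (s2 ++ a :: s3)`: `Al1` with `2 ↦ D ++ s1`, `3 ↦ s2`.  (3) `suf = s1 ++ a :: (s2 ++ x :: s3)`: `Al2` in the same way. -/
def RelStmt : Prop :=
  ∀ (n : ℕ) (η : FIC), ∀ (H pre suf : List ℕ) (x a : ℕ), a ∉ H →
    (Al0 n (RR η) → REo n η H pre suf x a) ∧
    (Al1 n (RR η) → [x, a].Sublist suf → REo n η H pre suf x a) ∧
    (Al2 n (RR η) → [a, x].Sublist suf → REo n η H pre suf x a)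

/-- **LEL** (uses MWGP.GAP).  `LEo` from the literal identities.
PROOF.  `suf = s1 ++ a :: s2`.  (1) `Ze` with `0 ↦ [x]`, `1 ↦ [a]`, `2 ↦ D ++ s1`.  (2) `pre = p1 ++ x :: p2`: `Rh` with `2 ↦ p2 ++ A`,
`3 ↦ D ++ s1`.  (3) `2 ≤ pre.count x`: `pre = p1 ++ x :: (p2 ++ x :: p3)`; the second `x` is a non-first occurrence, so GAP:
`~ p1 x p2 x^(n+1) p3 = (p1 x p2 x^(n-1)) x x p3` (`n ≥ 1`): `Rh'` with `2 ↦ p3 ++ A`, `3 ↦ D ++ s1`; GAP backwards. -/
def LelStmt : Prop :=
  ∀ (n : ℕ) (η : FIC), BG n (RR η) → ∀ (H pre suf : List ℕ) (x a : ℕ), a ∉ H →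
    (Ze n (RR η) → LEo n η H pre suf x a) ∧
    (Rh n (RR η) → x ∈ pre → LEo n η H pre suf x a) ∧
    (Rh' n (RR η) → 2 ≤ pre.count x → LEo n η H pre suf x a)

/-! ### exchange of two light letters -/

/-- **VEC** (uses PRM, EXS).  From words `W` to products of powers.
PROOF.  Let `h x ≡ e x * c` (choose `e`).  `W := GG S e`.  `rp m W` is a permutation of `GG S (fun x => m * e x)` (count: the number of `x` in
`GG S g` is `g x * S.count x`).  `A ++ a :: (GG S h ++ b :: D)`: EXS from exponent `0` to `n e x` in front of `a` and behind `b`, and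
from `h x` to `(n+c) e x` in the middle; PRM: `A ++ (rp n W ++ a :: (rp (n+c) W ++ b :: (rp n W ++ D)))`; `EXo`; PRM; EXS:
`(n+c) e ≡ h`, `(n + (n-1)c) e ≡ (n-1) h`.  For EXS in the middle: `x` is in `A` and in `D`, which is before and behind.  If
`Ok1` holds for one word it holds for the others (only numbers of heavy letters change, and they stay `≥ 2`
because of `x ∈ A`, `x ∈ D`). -/
def VecStmt : Prop :=
  ∀ (n : ℕ) (η : FIC), BG n (RR η) → ∀ (H pre suf : List ℕ) (a b c : ℕ), a ∉ H → b ∉ H →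
    EXo n η H pre suf a b c → SWx n η H pre suf a b c

/-- **VER** (uses PRM, EXS).  The same with exchanged roles.
PROOF.  Let `h x ≡ e x * c`, `f x := (n-1) * e x`, `W := GG S f`.  `EXo n η H pre suf b a c` read from right to left:
`A' ++ (rp (n+c) W ++ a :: (rp (n+(n-1)c) W ++ b :: (rp (n+c) W ++ D')))` is related to
`A' ++ (rp n W ++ b :: (rp (n+c) W ++ a :: (rp n W ++ D')))`.  Take `A' = A ++ GG S h`, `D' = GG S h ++ D`: exponents mod `n`:
`(n+c)(n-1)e ≡ -h`, so before `a`: `h - h ≡ 0`; between: `(n-1)c (n-1) e ≡ h`; behind `b`: `-h + h ≡ 0`: this is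
`A ++ a :: (GG S h ++ b :: D)` by EXS, PRM.  Second word: before `b`: `h`; between: `c (n-1) e ≡ (n-1) h`; behind `a`: `h`. -/
def VerStmt : Prop :=
  ∀ (n : ℕ) (η : FIC), BG n (RR η) → ∀ (H pre suf : List ℕ) (a b c : ℕ), a ∉ H → b ∉ H →
    EXo n η H pre suf b a c → SWx n η H pre suf a b c

/-- **SWE** (uses nothing).  Exchange with an alternating tail.
PROOF.  Lemma: if `(List.range k).map φ` is a sublist of `suf` then
`suf = (List.range k).flatMap (fun j => s j ++ [φ j]) ++ t` for some `s`, `t` (induction on `k` with `List.range_succ` and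
`List.append_sublist_iff`, or `List.range_succ_eq_map`).  Use it for `altl a b k`.  `Ec n c (alt k)` with `0 ↦ W`, `1 ↦ [a]`, `2 ↦ [b]`,
`3 ↦ D ++ s 0`, `3 + j ↦ s j` (`1 ≤ j`), multiplied with `pre ++ A` and `t`; `(X m).flatMap σ = rp m W`;
`(alt k).flatMap σ ++ t = D ++ suf` (`1 ≤ k`). -/
def SweStmt : Prop :=
  ∀ (n c k : ℕ) (η : FIC), 1 ≤ k → Ec n c (alt k) (RR η) → ∀ (H pre suf : List ℕ) (a b : ℕ),
    (altl a b k).Sublist suf → EXo n η H pre suf a b c

/-- **SWF** (uses nothing).  Exchange with a common later block, from `FE`.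
PROOF.  `suf = q ++ a :: (w ++ b :: r)`.  Let `y` be a letter which does not occur in the word and is not `a`, `b`
(`y` = sum of all letters + 1).  `FE` with `x := y`, `p := pre ++ A`, `q := D ++ q`: the letters of `w` occur twice in `suf`.
Then `RR.sub` with `y ↦ W` and `c ↦ [c]` for the other letters: lists without `y` are not changed,
`y^m` becomes `rp m W`.  (`y ∉ A, D, pre, suf`.) -/
def SwfStmt : Prop :=
  ∀ (n c : ℕ) (η : FIC), FE n c (RR η) → ∀ (H pre suf : List ℕ) (a b : ℕ), a ≠ b →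
    Cl suf a b → EXo n η H pre suf a b c

/-- **JMA** (uses MWGP.GAP).  With `Al0` a non-first letter `a` is moved to the right over multiple letters.
PROOF.  Induction on `w` (for all `p`).  `w = []`: `p a (b r)`: GAP (1) for `a`, `a^(n+1) = a^n ++ [a]`.. : use the statement
`p ++ a :: (w ++ r) ~ p ++ a :: (w ++ (a^n ++ r))`.  `w = []`: GAP (1).  `w = c :: w0`: it is enough to show
`p a c w0 r ~ p a c a^n w0 r`: then the induction hypothesis for `p ++ a :: c :: a^(n-1)` (which contains `a`) and the last `a` of `a^n`: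
`.. a w0 r ~ .. a w0 a^n r`, and then the `a^n` behind `c` is removed again by the same step (backwards).
Step: `c = a`: GAP (1).  `c ∈ p`: GAP (1) for `a`: `p a^(n+1) c ..`, and GAP (2) (`a`, `c` in `p`) `n` times: `p a c a^n ..`.
`c ∉ p`, `c ≠ a`: then `c` occurs in `w0 ++ r` (it is multiple in the word): `w0 ++ r = s1 ++ c :: s2`; GAP (1):
`p a c .. ~ p a^(n+1) c ..` (it contains `a a c` with `n+1 ≥ 2` letters `a`), `Al0` with `0 ↦ [a]`, `1 ↦ [c]`, `2 ↦ s1`:
`~ p a^(n+1) c a^n s1 c s2 ~ p a c a^n ..` (GAP). -/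
def JmaStmt : Prop :=
  ∀ (n : ℕ) (η : FIC), BG n (RR η) → Al0 n (RR η) → ∀ (p w r : List ℕ) (a : ℕ), a ∈ p →
    MVO.Sys.Mul w (p ++ a :: (w ++ r)) →
      RR η (p ++ a :: (w ++ r)) (p ++ a :: (w ++ (List.replicate n a ++ r)))

/-- **JMB** (uses MWGP.GAP).  With `Rh` a non-first letter `b` is moved to the left over multiple letters.
PROOF.  Induction on `w` from the right (for all `r`).  `w = []`: GAP.  `w = w0 ++ [c]`: it is enough to show
`p w0 c b r ~ p w0 b^n c b r` (then the induction hypothesis for `w0` and the first `b` of `b^n`, and the `b^n` is removed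
again).  `c = b`: GAP (1).  `c ∈ p ++ w0`: GAP (1) for `b` and GAP (2) (`b`, `c` in `p ++ w0`).  `c ∉ p ++ w0`, `c ≠ b`: `c` occurs in `r`:
`r = s1 ++ c :: s2`, `p = p1 ++ b :: p2`; GAP (1): `b ~ b^(n+1)` behind `c`; `Rh` with `0 ↦ [b]`, `1 ↦ [c]`, `2 ↦ p2 ++ w0`,
`3 ↦ b^(n-1) ++ s1`: `~ p w0 b^n c b^(n+1) ..`; GAP. -/
def JmbStmt : Prop :=
  ∀ (n : ℕ) (η : FIC), BG n (RR η) → Rh n (RR η) → ∀ (p w r : List ℕ) (b : ℕ), b ∈ p →
    MVO.Sys.Mul w (p ++ (w ++ b :: r)) →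
      RR η (p ++ (w ++ b :: r)) (p ++ (List.replicate n b ++ (w ++ b :: r)))

/-- **SWS** (uses MWGP.GAP, JMA, JMB).  Exchange with a common later block, from `Es` and (`Al0` or `Rh`).
PROOF.  The two words are `U1 ++ suf`, `U2 ++ suf`, both `U1`, `U2` contain `a` and `b`.  Show: there is `suf'` with
`suf' = s1 ++ a :: b :: s2` and `RR η (U ++ suf) (U ++ suf')` for all `U` with `a, b ∈ U`; then `Es n c` with `0 ↦ W`, `1 ↦ [a]`,
`2 ↦ [b]`, `3 ↦ D ++ s1` gives `U1 ++ suf' ~ U2 ++ suf'`.  `Cl suf a b`: `suf = q ++ a :: (w ++ b :: r)`.  `Al0`: JMA (`p := U ++ q`,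
`r := b :: r`): `suf' = q ++ a :: (w ++ (a^n ++ b :: r))`, `a^n = a^(n-1) ++ [a]`.  `Rh`: JMB (`p := U ++ (q ++ [a])`):
`suf' = q ++ a :: (b^n ++ (w ++ b :: r))`.  The letters of `w` occur twice in `suf`.  `Cl suf b a`: the same with `a`, `b` exchanged
gives a factor `b a`; GAP (2) (`a`, `b` in `U`) exchanges it. -/
def SwsStmt : Prop :=
  ∀ (n c : ℕ) (η : FIC), BG n (RR η) → Es n c (RR η) → Al0 n (RR η) ∨ Rh n (RR η) →
    ∀ (H pre suf : List ℕ) (a b : ℕ), Cl suf a b ∨ Cl suf b a → EXo n η H pre suf a b c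

/-- **SWP** (uses MWGP.GAP).  Exchange if `a..b..a` or `b..a..b` occurs later, from `Es` and `F1`.
PROOF.  As SWS with: `suf = q0 ++ a :: (q1 ++ b :: (q2 ++ a :: q3))`, `a ∈ U`.  GAP (1): both `a` become `a^(n+1)` (`n ≥ 1`), so `F1` with
`0 ↦ [a]`, `2 ↦ q1`, `3 ↦ b :: q2` can be used for `.. a a q1 · b q2 a a ..`: it inserts `a^n` in front of `b`; then GAP backwards:
`suf' = q0 ++ a :: (q1 ++ (a^n ++ b :: (q2 ++ a :: q3)))`, which contains the factor `a b`.  For `b..a..b`: insert `b^n` behind `a`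
(`2 ↦ q1 ++ [a]`, `3 ↦ q2`). -/
def SwpStmt : Prop :=
  ∀ (n c : ℕ) (η : FIC), BG n (RR η) → Es n c (RR η) → F1 n (RR η) →
    ∀ (H pre suf : List ℕ) (a b : ℕ), [a, b, a].Sublist suf ∨ [b, a, b].Sublist suf →
      EXo n η H pre suf a b c

/-- **SW0** (uses EXS).  Exchange of neighbours gives `SWx` for `c = n`.
PROOF.  `h x ≡ e n ≡ 0`: EXS (first statement) from `h` to `0`: `GG S 0 = []`: `A ++ a :: b :: D`; `ADo`; EXS back
(`(n-1) h x ≡ 0`). -/
def Sw0Stmt : Prop :=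
  ∀ (n : ℕ) (η : FIC), BG n (RR η) → ∀ (H pre suf : List ℕ) (a b : ℕ), a ∉ H → b ∉ H →
    ADo η H pre suf a b → SWx n η H pre suf a b n

/-- **KAD** (uses nothing).  `Ka` and its consequences.
PROOF.  (1) `Ka` with `0 ↦ [a]`, `1 ↦ [b]`, `2 ↦ D ++ s1`, `3 ↦ s2` if `suf = s1 ++ a :: (s2 ++ b :: s3)`; if `suf = s1 ++ b :: (s2 ++ a :: s3)`: `0 ↦ [b]`,
`1 ↦ [a]` and symmetry.  (2) `Dm n 1`: `Ka` with `0 ↦ [0]`, `1 ↦ [1]`, `2 ↦ []`, `3 ↦ [2]`: `x a x | a ~ a x x | a`; multiplied with `x^n` on the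
left, `2 ↦` words `x^t`: `x^(n+1) a x^(1+t) |a ~ x^n a x^(2+t) |a`; `t = n - 1` (`n ≥ 1`): `x^(n+1) a x^n | a ~ x^n a x^(n+1) | a`. -/
def KadStmt : Prop :=
  ∀ (n : ℕ) (η : FIC), 1 ≤ n → Ka (RR η) →
    (∀ (H pre suf : List ℕ) (a b : ℕ), [a, b].Sublist suf ∨ [b, a].Sublist suf →
      ADo η H pre suf a b) ∧ Dm n 1 (RR η)

/-- **MSW** (uses PRM, EXS, CRM).  From `SWx` and free labels to `SWo`.
PROOF.  Show for all `S`, `A`, `D` (with the hypotheses of `SWo`) by induction on the number of `x ∈ S` which do not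
satisfy `g x ≡ e c`.  Number `0`: `SWx`.  Otherwise let `x ∈ S` be such a letter, PRM: `S = x :: S'` without restriction.
Case `x` free for `a` (`CRo x a` for all labels).  `A a x^(g x) GG(S') b D`: insert `x^n` before `a` and behind `a` (EXS, `x ∈ A`, `x ∈ D`),
`CRo x a 0 (g x)`: the label of `x` at `a` becomes `g x`: `A x^(g x) a GG(S') b D` (exponents mod `n`: behind `a`:
`(n-1) g x + g x ≡ 0`).  Induction hypothesis for `S'`, `A ++ x^(g x)`: `A x^(g x) GG(S') b GG(S', (n-1)g) a GG(S') D`; `CRo x a 0 ((n-1) g x)`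
at `a`: `A x^(g x) GG(S') b GG(S', (n-1) g) x^((n-1) g x) a x^(g x) GG(S') D` (`(n-1)(n-1) g x ≡ g x`); PRM: this is the target.
Case `x` free for `b`: `A a GG(S') x^(g x) b D ~ A a GG(S') b x^(g x) D` (`CRo x b (g x) 0`) `~ A GG(S') b GG(S', (n-1) g) a GG(S') x^(g x) D`
(induction hypothesis for `D := x^(g x) ++ D`) `~ A GG(S') x^(g x) b x^((n-1) g x) GG(S', (n-1) g) a GG(S') x^(g x) D` (`CRo x b 0 (g x)`
after inserting `x^n`). -/
def MswStmt : Prop :=
  ∀ (n : ℕ) (η : FIC), BG n (RR η) → ∀ (H pre suf : List ℕ) (a b c : ℕ) (g : ℕ → ℕ), a ∉ H →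
    b ∉ H → SWx n η H pre suf a b c →
      (∀ x ∈ H, (∀ s s', CRo n η H pre suf x a s s') ∨ (∀ s s', CRo n η H pre suf x b s s') ∨
        ∃ e, g x ≡ e * c [MOD n]) →
        SWo n η H pre suf a b g

end Pool.Agent.MWGR
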